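import Pool.Agent.Y311.DN.Win

/-!
# Convergence in density
-/

set_option autoImplicit false
set_option linter.unusedSectionVars false
set_option maxHeartbeats 400000

open Filter Topology MeasureTheory ProbabilityTheory
open scoped ENNReal

noncomputable section

namespace Pool.Agent.Y311.DN

open Pool.Agent.Y311.UB Pool.Agent.W761.Box

theorem tendsto_swap {α β : Type} [Fintype α] [Fintype β] (g : β → β) :
    Tendsto (fun M : α ⊕ β → ℕ => (Sum.elim (fun w => M (Sum.inl w)) (fun i => M (Sum.inr (g i))) :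
      α ⊕ β → ℕ)) atTop atTop := by
  refine tendsto_atTop_atTop.mpr fun b => ⟨fun _ => ∑ v, b v, fun M hM => ?_⟩
  have hle : ∀ v, b v ≤ ∑ w, b w := fun v =>
    Finset.single_le_sum (f := b) (fun _ _ => Nat.zero_le _) (Finset.mem_univ v)
  have hM' : ∀ v, ∑ w, b w ≤ M v := fun v => hM v
  intro v
  rcases v with v | v
  · show b (Sum.inl v) ≤ M (Sum.inl v)
    exact (hle _).trans (hM' _)
  · show b (Sum.inr v) ≤ M (Sum.inr (g v))
    exact (hle _).trans (hM' _)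

/-- Mean square differences, all base windows. -/
theorem sq_conv {H : Type*} [AddCommGroup H] {p m q : ℕ} (l : Fin p → Option (Fin m) → H)
    (u : Fin q → H) {X : Type*} [MeasurableSpace X] {μ : Measure X} [IsProbabilityMeasure μ]
    {Ψ : H → Equiv.Perm X} (hΨ : Act μ Ψ) {f : Option (Fin m) → X → ℂ} (hf : ∀ a, BM (f a)) :
    ∀ᵐ x ∂μ, Tendsto (fun M : Bas p m q ⊕ (Fin p ⊕ Fin p) → ℕ =>
      ba (fun v => M (Sum.inl v)) fun b =>
        ‖av Ψ l f (fun i => M (Sum.inr (Sum.inl i))) (Ψ (bas l u fun v => ((b v : ℕ) : ℤ)) x) -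
          av Ψ l f (fun i => M (Sum.inr (Sum.inr i)))
            (Ψ (bas l u fun v => ((b v : ℕ) : ℤ)) x)‖ ^ 2) atTop (𝓝 0) := by
  filter_upwards [pair_conv l u hΨ hf] with x hx
  obtain ⟨c, hc⟩ := hx
  obtain ⟨P, hP⟩ : ∃ P : (Bas p m q → ℕ) → (Fin p → ℕ) → (Fin p → ℕ) → ℂ, ∀ B N N', P B N N' =
    (∏ v, (B v : ℂ))⁻¹ * ∑ b ∈ Fintype.piFinset (fun v => Finset.Icc 1 (B v)),
        av Ψ l f N (Ψ (bas l u fun v => ((b v : ℕ) : ℤ)) x) *
        (starRingEnd ℂ) (av Ψ l f N' (Ψ (bas l u fun v => ((b v : ℕ) : ℤ)) x)) :=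
    ⟨_, fun _ _ _ => rfl⟩
  have hc' : Tendsto (fun M : Bas p m q ⊕ (Fin p ⊕ Fin p) → ℕ => P (fun v => M (Sum.inl v))
      (fun i => M (Sum.inr (Sum.inl i))) (fun i => M (Sum.inr (Sum.inr i)))) atTop (𝓝 c) :=
    hc.congr fun M => (hP _ _ _).symm
  have hgen : ∀ (g : Fin p ⊕ Fin p → Fin p ⊕ Fin p),
      Tendsto (fun M : Bas p m q ⊕ (Fin p ⊕ Fin p) → ℕ => P (fun v => M (Sum.inl v))
      (fun i => M (Sum.inr (g (Sum.inl i)))) (fun i => M (Sum.inr (g (Sum.inr i))))) atTop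
      (𝓝 c) := by
    intro g
    exact hc'.comp (tendsto_swap g)
  have h1 := hgen fun v => Sum.inl (v.elim id id)
  have h2 := hgen id
  have h3 := hgen Sum.swap
  have h4 := hgen fun v => Sum.inr (v.elim id id)
  have h5 := ((h1.sub h2).sub h3).add h4
  have h6 : c - c - c + c = 0 := by ring
  rw [h6] at h5
  have h7 := (Complex.continuous_re.tendsto 0).comp h5
  rw [Complex.zero_re] at h7
  refine h7.congr fun M => ?_
  rw [Function.comp_apply]
  set B : Bas p m q → ℕ := fun v => M (Sum.inl v)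
  set N : Fin p → ℕ := fun i => M (Sum.inr (Sum.inl i)) with hN
  set N' : Fin p → ℕ := fun i => M (Sum.inr (Sum.inr i)) with hN'
  show (P B N N - P B N N' - P B N' N + P B N' N').re = _
  rw [hP, hP, hP, hP, ← mul_sub, ← Finset.sum_sub_distrib, ← mul_sub, ← Finset.sum_sub_distrib, ← mul_add,
    ← Finset.sum_add_distrib]
  have e1 : ((∏ v, (B v : ℂ))⁻¹ : ℂ) = (((∏ v, (B v : ℝ))⁻¹ : ℝ) : ℂ) := by
    push_cast
    rfl
  rw [e1, Complex.re_ofReal_mul, Complex.re_sum, ba]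
  congr 1
  refine Finset.sum_congr rfl fun b _ => ?_
  set z := av Ψ l f N (Ψ (bas l u fun v => ((b v : ℕ) : ℤ)) x)
  set w := av Ψ l f N' (Ψ (bas l u fun v => ((b v : ℕ) : ℤ)) x)
  have e2 : z * (starRingEnd ℂ) z - z * (starRingEnd ℂ) w - w * (starRingEnd ℂ) z +
      w * (starRingEnd ℂ) w = (z - w) * (starRingEnd ℂ) (z - w) := by
    rw [map_sub]
    ring
  rw [e2, Complex.mul_conj, Complex.ofReal_re, Complex.normSq_eq_norm_sq]

/-- The window homomorphism. -/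
def wh {H : Type*} [AddCommGroup H] {q : ℕ} (u : Fin q → H) : (Fin q → ℤ) →+ H where
  toFun z := ∑ s, z s • u s
  map_zero' := by simp
  map_add' x y := by simp [add_smul, Finset.sum_add_distrib]

theorem wh_apply {H : Type*} [AddCommGroup H] {q : ℕ} (u : Fin q → H) (z : Fin q → ℤ) :
    wh u z = ∑ s, z s • u s := rfl

/-- A bound for the averages. -/
theorem av_bound {H X : Type*} [AddCommGroup H] {p : ℕ} {A : Type*} [Fintype A]
    (Ψ : H → Equiv.Perm X) (l : Fin p → A → H) {f : A → X → ℂ} {C : A → ℝ}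
    (hC : ∀ a x, ‖f a x‖ ≤ C a) (hC0 : ∀ a, 0 ≤ C a) (N : Fin p → ℕ) (y : X) :
    ‖av Ψ l f N y‖ ≤ ∏ a, C a := by
  have hP : 0 ≤ ∏ a, C a := Finset.prod_nonneg fun a _ => hC0 a
  have h1 : ‖av Ψ l f N y‖ ≤ ba N fun _ => ∏ a, C a := by
    rw [av, norm_mul, norm_inv, norm_prod, ba]
    simp only [Complex.norm_natCast]
    refine mul_le_mul_of_nonneg_left ((norm_sum_le _ _).trans (Finset.sum_le_sum fun n _ => ?_))
      (by positivity)
    rw [norm_prod]
    exact Finset.prod_le_prod (fun a _ => norm_nonneg _) fun a _ => hC a _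
  exact h1.trans (ba_const_le hP)

theorem av_meas {H X : Type*} [AddCommGroup H] [MeasurableSpace X] {μ : Measure X} {p : ℕ}
    {A : Type*} [Fintype A] {Ψ : H → Equiv.Perm X} (hΨ : Act μ Ψ) (l : Fin p → A → H)
    {f : A → X → ℂ} (hf : ∀ a, Measurable (f a)) (N : Fin p → ℕ) :
    Measurable (av Ψ l f N) := by
  unfold av
  refine (Finset.measurable_fun_sum _ fun n _ => ?_).const_mul _
  exact Finset.measurable_fun_prod _ fun a _ => (hf a).comp (hΨ.measurable _)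

/-- Mean square differences, small windows. -/
theorem win_conv {H : Type*} [AddCommGroup H] {p m q : ℕ} (l : Fin p → Option (Fin m) → H)
    (u : Fin q → H) (a : Fin p → Fin m → Fin q → ℤ) (ha : ∀ i j, l i (some j) = wh u (a i j))
    {X : Type*} [MeasurableSpace X] {μ : Measure X} [IsProbabilityMeasure μ]
    {Ψ : H → Equiv.Perm X} (hΨ : Act μ Ψ) {f : Option (Fin m) → X → ℂ} (hf : ∀ a, BM (f a)) :
    ∀ᵐ x ∂μ, Tendsto (fun M : (Fin p → ℕ) × (Fin p → ℕ) × (Fin q → ℕ) =>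
      ba M.2.2 fun c => ‖av Ψ l f M.1 (Ψ (wh u fun v => ((c v : ℕ) : ℤ)) x) -
          av Ψ l f M.2.1 (Ψ (wh u fun v => ((c v : ℕ) : ℤ)) x)‖ ^ 2) atTop (𝓝 0) := by
  choose hfm C hC using hf
  have hC' : ∀ a x, ‖f a x‖ ≤ |C a| := fun a x => (hC a x).trans (le_abs_self _)
  set K : ℝ := (2 * ∏ a, |C a|) ^ 2 with hK
  have hK0 : 0 ≤ K := by positivity
  have hbound : ∀ N N' y, ‖av Ψ l f N y - av Ψ l f N' y‖ ^ 2 ≤ K := by
    intro N N' y
    rw [hK]
    refine pow_le_pow_left₀ (norm_nonneg _) ((norm_sub_le _ _).trans ?_) 2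
    have e1 := av_bound Ψ l hC' (fun a => abs_nonneg _) N y
    have e2 := av_bound Ψ l hC' (fun a => abs_nonneg _) N' y
    linarith
  filter_upwards [sq_conv l u hΨ fun a => ⟨hfm a, C a, hC a⟩] with x hx
  rw [Metric.tendsto_atTop]
  intro ε hε
  obtain ⟨M0, hM0⟩ := (Metric.tendsto_atTop.mp hx) (ε / 2) (by positivity)
  -- fixed base window
  set B : (Fin p ⊕ Fin p) × Fin m → ℕ := fun v => M0 (Sum.inl (Sum.inl v)) + 1 with hB
  set z : ((Fin p ⊕ Fin p) × Fin m → ℕ) → Fin q → ℤ := fun b s =>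
    ∑ c, ∑ i, ((b (c, i) : ℕ) : ℤ) * a (prj c) i s with hz
  have hbas : ∀ (b : (Fin p ⊕ Fin p) × Fin m → ℕ) (c : Fin q → ℕ),
      bas l u (fun v => ((Sum.elim b c v : ℕ) : ℤ)) =
        wh u (z b + fun i => ((c i : ℕ) : ℤ)) := by
    intro b c
    rw [map_add]
    show ∑ c', ∑ i, ((b (c', i) : ℕ) : ℤ) • l (prj c') (some i) +
      ∑ s, ((c s : ℕ) : ℤ) • u s = _
    rw [wh_apply u (fun i => ((c i : ℕ) : ℤ))]
    congr 1
    rw [wh_apply]
    simp only [hz, Finset.sum_smul]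
    symm
    rw [Finset.sum_comm]
    refine Finset.sum_congr rfl fun c' _ => ?_
    rw [Finset.sum_comm]
    refine Finset.sum_congr rfl fun i _ => ?_
    rw [ha, wh_apply, Finset.smul_sum]
    refine Finset.sum_congr rfl fun s _ => ?_
    rw [mul_smul]
  choose D hD0 hD using fun v : Fin q → ℤ => ba_shift v
  set S : ℝ := ∑ b ∈ Fintype.piFinset (fun v => Finset.Icc 1 (B v)), D (z b) with hS
  have hS0 : 0 ≤ S := Finset.sum_nonneg fun b _ => hD0 _
  have hsm : Tendsto (fun N : Fin q → ℕ => K * S * ∑ i, (N i : ℝ)⁻¹) atTop (𝓝 0) := by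
    have h1 : Tendsto (fun N : Fin q → ℕ => ∑ i, (N i : ℝ)⁻¹) atTop
        (𝓝 (∑ _i : Fin q, (0 : ℝ))) := by
      refine tendsto_finsetSum _ fun i _ => ?_
      refine tendsto_inv_atTop_zero.comp (tendsto_natCast_atTop_atTop.comp ?_)
      exact tendsto_atTop_atTop.mpr fun b => ⟨fun _ => b, fun N hN => hN i⟩
    rw [Finset.sum_const_zero] at h1
    have := h1.const_mul (K * S)
    rwa [mul_zero] at this
  obtain ⟨L1, hL1⟩ := (Metric.tendsto_atTop.mp hsm) (ε / 2) (by positivity)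
  refine ⟨(fun i => M0 (Sum.inr (Sum.inl i)), fun i => M0 (Sum.inr (Sum.inr i)),
    fun s => L1 s + M0 (Sum.inl (Sum.inr s)) + 1), fun M hM => ?_⟩
  obtain ⟨hM1, hM2, hM3⟩ := hM
  simp only at hM1 hM2 hM3
  have hLpos : ∀ s, 0 < M.2.2 s := fun s => by
    have := hM3 s
    simp only at this
    omega
  have hBpos : ∀ v, 0 < B v := fun v => by
    simp [hB]
  set g : (Fin q → ℤ) → ℝ := fun y => ‖av Ψ l f M.1 (Ψ (wh u y) x) -
    av Ψ l f M.2.1 (Ψ (wh u y) x)‖ ^ 2 with hg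
  have hg0 : ∀ y, 0 ≤ g y := fun y => by positivity
  have hgK : ∀ y, |g y| ≤ K := fun y => by
    rw [abs_of_nonneg (hg0 y)]
    exact hbound _ _ _
  show dist (ba M.2.2 fun c => g fun v => ((c v : ℕ) : ℤ)) 0 < ε
  rw [Real.dist_eq, sub_zero, abs_of_nonneg (ba_nonneg fun c => hg0 _)]
  -- the large window
  set M' : Bas p m q ⊕ (Fin p ⊕ Fin p) → ℕ :=
    Sum.elim (Sum.elim B M.2.2) (Sum.elim M.1 M.2.1) with hM'
  have hge : M0 ≤ M' := by
    rintro ((v | s) | (i | i))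
    · show M0 _ ≤ B v
      simp [hB]
    · show M0 _ ≤ M.2.2 s
      have := hM3 s
      simp only at this
      omega
    · exact hM1 i
    · exact hM2 i
  have hbig := hM0 M' hge
  rw [Real.dist_eq, sub_zero] at hbig
  have hbig2 := (le_abs_self _).trans_lt hbig
  have hbig3 : (ba B fun b => ba M.2.2 fun c => g (z b + fun i => ((c i : ℕ) : ℤ))) < ε / 2 := by
    have e1 : (ba B fun b => ba M.2.2 fun c => g (z b + fun i => ((c i : ℕ) : ℤ))) =
        ba (fun v => M' (Sum.inl v)) fun b =>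
        ‖av Ψ l f (fun i => M' (Sum.inr (Sum.inl i))) (Ψ (bas l u fun v => ((b v : ℕ) : ℤ)) x) -
          av Ψ l f (fun i => M' (Sum.inr (Sum.inr i)))
            (Ψ (bas l u fun v => ((b v : ℕ) : ℤ)) x)‖ ^ 2 := by
      rw [ba_sum]
      show ba B _ = ba B _
      congr 1
      funext b
      show ba M.2.2 _ = ba M.2.2 _
      congr 1
      funext c
      rw [hbas b c]
      rfl
    rw [e1]
    exact hbig2
  have hsmall : ∀ b ∈ Fintype.piFinset (fun v => Finset.Icc 1 (B v)),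
      (ba M.2.2 fun c => g fun v => ((c v : ℕ) : ℤ)) ≤
        (ba M.2.2 fun c => g (z b + fun i => ((c i : ℕ) : ℤ))) + K * S * ∑ i, (M.2.2 i : ℝ)⁻¹ := by
    intro b hb
    have e1 := hD (z b) M.2.2 hLpos g K hgK
    have e2 : D (z b) ≤ S := Finset.single_le_sum (f := fun b => D (z b)) (fun b _ => hD0 _) hb
    have e3 : K * D (z b) * ∑ i, (M.2.2 i : ℝ)⁻¹ ≤ K * S * ∑ i, (M.2.2 i : ℝ)⁻¹ :=
      mul_le_mul_of_nonneg_right (mul_le_mul_of_nonneg_left e2 hK0)
        (Finset.sum_nonneg fun i _ => by positivity)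
    have e4 := neg_abs_le ((ba M.2.2 fun m => g (z b + fun i => ((m i : ℕ) : ℤ))) -
        ba M.2.2 fun m => g (fun i => ((m i : ℕ) : ℤ)))
    linarith
  have hfin : (ba M.2.2 fun c => g fun v => ((c v : ℕ) : ℤ)) ≤
      (ba B fun b => ba M.2.2 fun c => g (z b + fun i => ((c i : ℕ) : ℤ))) +
        K * S * ∑ i, (M.2.2 i : ℝ)⁻¹ := by
    calc (ba M.2.2 fun c => g fun v => ((c v : ℕ) : ℤ))
        = ba B fun _ => ba M.2.2 fun c => g fun v => ((c v : ℕ) : ℤ) := (ba_const hBpos _).symm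
      _ ≤ ba B fun b => (ba M.2.2 fun c => g (z b + fun i => ((c i : ℕ) : ℤ))) +
          K * S * ∑ i, (M.2.2 i : ℝ)⁻¹ := ba_mono' hsmall
      _ = _ := by rw [ba_add, ba_const hBpos]
  have hL1' := hL1 M.2.2 (fun s => by
    have : L1 s + M0 (Sum.inl (Sum.inr s)) + 1 ≤ M.2.2 s := hM3 s
    show L1 s ≤ M.2.2 s
    omega)
  rw [Real.dist_eq, sub_zero] at hL1'
  have := (le_abs_self _).trans_lt hL1'
  linarith

end Pool.Agent.Y311.DN
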