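import Pool.Agent.Y311.DN.Main

/-!
# Commuting transformations
-/

set_option autoImplicit false
set_option linter.unusedSectionVars false
set_option maxHeartbeats 400000

open Filter Topology MeasureTheory ProbabilityTheory
open scoped ENNReal Matrix

noncomputable section

namespace Pool.Agent.Y311.DN

open Pool.Agent.Y311.UB Pool.Agent.W761.Box

/-- Several parameters, matrices. -/
theorem comm_dens {r p m q : ℕ} {X : Type*} [MeasurableSpace X] {μ : Measure X}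
    [IsProbabilityMeasure μ]
    {T : Fin r → Equiv.Perm X} (hTm : ∀ i, Measurable (T i).symm)
    (hT : ∀ i, MeasurePreserving (T i) μ μ) (hc : ∀ i j, Commute (T i) (T j))
    (V : Fin (m + 1) → Matrix (Fin r) (Fin p) ℤ) (b : Fin (m + 1) → Fin r → ℤ)
    (U : Matrix (Fin r) (Fin q) ℤ)
    (hU : ∀ j : Fin m, ∃ C : Matrix (Fin q) (Fin p) ℤ, V j.succ = U * C)
    {f : Fin (m + 1) → X → ℂ} (hf : ∀ j, MemLp (f j) ∞ μ)
    {A : (Fin p → ℕ) → X → ℂ}
    (hA : ∀ N x, A N x = (∏ l, (N l : ℂ))⁻¹ *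
      ∑ n ∈ Fintype.piFinset (fun l => Finset.Icc 1 (N l)), ∏ j,
        f j ((List.ofFn fun i => T i ^ (V j *ᵥ (fun l => ((n l : ℕ) : ℤ)) + b j) i).prod x)) :
    ∃ (F : X → ℂ) (C : ℝ), Measurable F ∧ (∀ x, ‖F x‖ ≤ C) ∧
      Tendsto (fun N => ∫ x, ‖A N x - F x‖ ^ 2 ∂μ) atTop (𝓝 0) ∧
      ∀ᵐ x ∂μ, ∀ ε : ℝ, 0 < ε → ∃ K : ℕ, ∀ (N : Fin p → ℕ) (L : Fin q → ℕ),
        (∀ i, K ≤ N i) → (∀ s, K ≤ L s) →
        (((Fintype.piFinset (fun s => Finset.Icc 1 (L s))).filter fun c =>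
          ε ≤ ‖A N ((List.ofFn fun i => T i ^ (U *ᵥ fun s => ((c s : ℕ) : ℤ)) i).prod x) -
            F ((List.ofFn fun i => T i ^ (U *ᵥ fun s => ((c s : ℕ) : ℤ)) i).prod x)‖).card : ℝ) ≤
          ε * ∏ s, (L s : ℝ) := by
  choose C hC using hU
  set l : Fin p → Option (Fin m) → Fin r → ℤ := fun i a t =>
    a.elim (V 0 t i) fun j => V j.succ t i with hl
  set b' : Option (Fin m) → Fin r → ℤ := fun a => a.elim (b 0) fun j => b j.succ with hb'
  set f' : Option (Fin m) → X → ℂ := fun a => a.elim (f 0) fun j => f j.succ with hf'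
  set u : Fin q → Fin r → ℤ := fun s t => U t s with hu
  have hwh : ∀ z : Fin q → ℤ, wh u z = U *ᵥ z := by
    intro z
    rw [wh_apply]
    funext t
    simp only [Finset.sum_apply, Pi.smul_apply, smul_eq_mul, Matrix.mulVec, dotProduct, hu]
    exact Finset.sum_congr rfl fun s _ => mul_comm _ _
  have ha : ∀ i j, l i (some j) = wh u fun s => C j s i := by
    intro i j
    rw [hwh]
    funext t
    simp only [hl, Option.elim_some, Matrix.mulVec, dotProduct]
    rw [hC j, Matrix.mul_apply]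
  have hf'm : ∀ a, MemLp (f' a) ∞ μ := by
    rintro (_ | j)
    · exact hf 0
    · exact hf j.succ
  obtain ⟨F, C0, hFm, hFC, hF1, hF2⟩ := densC l b' u (fun i j s => C j s i) ha
    (act_prod hTm hT hc) hf'm
  have hAeq : ∀ N x, avs (fun z : Fin r → ℤ => (List.ofFn fun i => T i ^ z i).prod) l b' f' N x =
      A N x := by
    intro N x
    rw [hA, avs]
    congr 1
    refine Finset.sum_congr rfl fun n _ => ?_
    rw [Fintype.prod_option, Fin.prod_univ_succ]
    have hz : ∀ (W : Matrix (Fin r) (Fin p) ℤ), (∑ i, ((n i : ℕ) : ℤ) • fun t => W t i) =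
        W *ᵥ fun l => ((n l : ℕ) : ℤ) := by
      intro W
      funext t
      simp only [Finset.sum_apply, Pi.smul_apply, smul_eq_mul, Matrix.mulVec, dotProduct]
      exact Finset.sum_congr rfl fun s _ => mul_comm _ _
    have h0 : (∑ i, ((n i : ℕ) : ℤ) • l i none + b' none) =
        (V 0 *ᵥ fun l => ((n l : ℕ) : ℤ)) + b 0 := by
      rw [← hz]
      rfl
    have hs : ∀ j, (∑ i, ((n i : ℕ) : ℤ) • l i (some j) + b' (some j)) =
        (V j.succ *ᵥ fun l => ((n l : ℕ) : ℤ)) + b j.succ := by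
      intro j
      rw [← hz]
      rfl
    rw [h0]
    congr 1
    exact Finset.prod_congr rfl fun j _ => by rw [hs j]; rfl
  refine ⟨F, C0, hFm, hFC, ?_, ?_⟩
  · refine hF1.congr fun N => ?_
    simp only [hAeq]
  · filter_upwards [hF2] with x hx
    intro ε hε
    obtain ⟨K, hK⟩ := hx ε hε
    refine ⟨K, fun N L hN hL => ?_⟩
    have h1 := hK N L hN hL
    simp only [hAeq, hwh] at h1
    exact h1

theorem sum_fin1 {R : Type*} [AddCommMonoid R] (N : Fin 1 → ℕ) (F : (Fin 1 → ℕ) → R) :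
    ∑ n ∈ Fintype.piFinset (fun i => Finset.Icc 1 (N i)), F n =
      ∑ k ∈ Finset.Icc 1 (N 0), F fun _ => k := by
  refine Finset.sum_bij' (fun n _ => n 0) (fun k _ => fun _ => k) ?_ ?_ ?_ ?_ ?_
  · intro n hn
    exact (Fintype.mem_piFinset.mp hn) 0
  · intro k hk
    rw [Fintype.mem_piFinset]
    intro i
    rw [Subsingleton.elim i 0]
    exact hk
  · intro n _
    funext i
    rw [Subsingleton.elim i 0]
  · intro k _
    rfl
  · intro n _
    congr 1
    funext i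
    rw [Subsingleton.elim i 0]

theorem card_fin1 (L : Fin 1 → ℕ) (P : (Fin 1 → ℕ) → Prop) [DecidablePred P] :
    ((Fintype.piFinset (fun i => Finset.Icc 1 (L i))).filter P).card =
      ((Finset.Icc 1 (L 0)).filter fun k => P fun _ => k).card := by
  rw [Finset.card_filter, Finset.card_filter, sum_fin1]

/-- One parameter, an abstract action. -/
theorem one_dens {H : Type*} [AddCommGroup H] [Countable H] {m q : ℕ}
    (v : Option (Fin m) → H) (b : Option (Fin m) → H)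
    (u : Fin q → H) (hv : ∀ j, ∃ a : Fin q → ℤ, v (some j) = ∑ s, a s • u s)
    {X : Type*} [MeasurableSpace X] {μ : Measure X} [IsProbabilityMeasure μ]
    {Ψ : H → Equiv.Perm X} (hΨ : Act μ Ψ) {f : Option (Fin m) → X → ℂ}
    (hf : ∀ a, MemLp (f a) ∞ μ) {A : ℕ → X → ℂ}
    (hA : ∀ N x, A N x = (N : ℂ)⁻¹ *
      ∑ n ∈ Finset.Icc 1 N, ∏ a, f a (Ψ (((n : ℕ) : ℤ) • v a + b a) x)) :
    ∃ (F : X → ℂ) (C : ℝ), Measurable F ∧ (∀ x, ‖F x‖ ≤ C) ∧
      Tendsto (fun N => ∫ x, ‖A N x - F x‖ ^ 2 ∂μ) atTop (𝓝 0) ∧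
      ∀ᵐ x ∂μ, ∀ ε : ℝ, 0 < ε → ∃ K : ℕ, ∀ (N : ℕ) (L : Fin q → ℕ),
        K ≤ N → (∀ s, K ≤ L s) →
        (((Fintype.piFinset (fun s => Finset.Icc 1 (L s))).filter fun c =>
          ε ≤ ‖A N (Ψ (∑ s, ((c s : ℕ) : ℤ) • u s) x) -
            F (Ψ (∑ s, ((c s : ℕ) : ℤ) • u s) x)‖).card : ℝ) ≤ ε * ∏ s, (L s : ℝ) := by
  choose a ha using hv
  obtain ⟨F, C0, hFm, hFC, hF1, hF2⟩ := densC (p := 1) (fun _ => v) b u (fun _ j => a j)
    (fun _ j => ha j) hΨ hf
  have hAeq : ∀ (N : Fin 1 → ℕ) x, avs Ψ (fun _ => v) b f N x = A (N 0) x := by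
    intro N x
    rw [hA, avs, sum_fin1]
    congr 1
    · congr 1
      exact Fin.prod_univ_one _
    · refine Finset.sum_congr rfl fun n _ => Finset.prod_congr rfl fun a _ => ?_
      rw [Fin.sum_univ_one]
  refine ⟨F, C0, hFm, hFC, ?_, ?_⟩
  · have hφ : Tendsto (fun N : ℕ => (fun _ : Fin 1 => N)) atTop atTop :=
      tendsto_atTop_atTop.mpr fun b => ⟨b 0, fun N hN i => by
        rw [Subsingleton.elim i 0]
        exact hN⟩
    refine (hF1.comp hφ).congr fun N => ?_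
    simp only [Function.comp_apply, hAeq]
  · filter_upwards [hF2] with x hx
    intro ε hε
    obtain ⟨K, hK⟩ := hx ε hε
    refine ⟨K, fun N L hN hL => ?_⟩
    have h1 := hK (fun _ => N) L (fun _ => hN) hL
    simp only [hAeq] at h1
    exact h1

theorem act_zpow {X : Type*} [MeasurableSpace X] {μ : Measure X} {T : Equiv.Perm X}
    (hTm : Measurable T.symm) (hT : MeasurePreserving T μ μ) :
    Act μ fun z : ℤ => T ^ z := by
  refine ⟨fun a b => zpow_add T a b, zpow_zero T, fun a => mp_zpow' hT ?_ a⟩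
  let e : X ≃ᵐ X := ⟨T, hT.measurable, hTm⟩
  exact hT.symm e

/-- Powers of one transformation. -/
theorem pow_dens {X : Type*} [MeasurableSpace X] {μ : Measure X} [IsProbabilityMeasure μ]
    {T : Equiv.Perm X} (hTm : Measurable T.symm) (hT : MeasurePreserving T μ μ) {k : ℕ}
    (v b : Fin k → ℤ) {f : Fin k → X → ℂ} (hf : ∀ j, MemLp (f j) ∞ μ) {A : ℕ → X → ℂ}
    (hA : ∀ N x, A N x = (N : ℂ)⁻¹ *
      ∑ n ∈ Finset.Icc 1 N, ∏ j, f j ((T ^ (v j * n + b j)) x)) :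
    ∃ (F : X → ℂ) (C : ℝ), Measurable F ∧ (∀ x, ‖F x‖ ≤ C) ∧
      Tendsto (fun N => ∫ x, ‖A N x - F x‖ ^ 2 ∂μ) atTop (𝓝 0) ∧
      ∀ᵐ x ∂μ, ∀ ε : ℝ, 0 < ε → ∃ K : ℕ, ∀ N L : ℕ, K ≤ N → K ≤ L →
        (((Finset.Icc 1 L).filter fun c => ε ≤ ‖A N ((T ^ c) x) - F ((T ^ c) x)‖).card : ℝ) ≤
          ε * L := by
  obtain ⟨F, C0, hFm, hFC, hF1, hF2⟩ := one_dens (H := ℤ) (m := k) (q := 1)
    (fun a => a.elim 0 v) (fun a => a.elim 0 b) (fun _ => 1) (fun j => ⟨fun _ => v j, by simp⟩)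
    (act_zpow hTm hT) (f := fun a => a.elim (fun _ => 1) f) (fun a => by
      rcases a with _ | j
      · exact memLp_const _
      · exact hf j) (A := A) (fun N x => by
      rw [hA]
      congr 1
      refine Finset.sum_congr rfl fun n _ => ?_
      rw [Fintype.prod_option]
      simp only [Option.elim_none, Option.elim_some, one_mul, smul_eq_mul]
      refine Finset.prod_congr rfl fun j _ => ?_
      rw [mul_comm (v j)])
  refine ⟨F, C0, hFm, hFC, hF1, ?_⟩
  filter_upwards [hF2] with x hx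
  intro ε hε
  obtain ⟨K, hK⟩ := hx ε hε
  refine ⟨K, fun N L hN hL => ?_⟩
  have h1 := hK N (fun _ => L) hN fun _ => hL
  rw [card_fin1] at h1
  simp only [Fin.sum_univ_one, Fin.prod_univ_one, smul_eq_mul, mul_one, zpow_natCast] at h1
  exact h1

end Pool.Agent.Y311.DN
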