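import Pool.Agent.Y311.DN.Ana

/-!
# The limit function
-/

set_option autoImplicit false
set_option linter.unusedSectionVars false
set_option maxHeartbeats 400000

open Filter Topology MeasureTheory ProbabilityTheory
open scoped ENNReal

noncomputable section

namespace Pool.Agent.Y311.DN

open Pool.Agent.Y311.UB Pool.Agent.W761.Box

variable {X : Type*} [MeasurableSpace X] {μ : Measure X} [IsProbabilityMeasure μ] {p q : ℕ}

theorem int_ba {W : (Fin q → ℕ) → X → X} (hW : ∀ c, MeasurePreserving (W c) μ μ)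
    {L : Fin q → ℕ} (hL : ∀ s, 0 < L s) {g : X → ℝ} (hg : Measurable g) {K : ℝ}
    (hK : ∀ x, |g x| ≤ K) : ∫ x, ba L (fun c => g (W c x)) ∂μ = ∫ x, g x ∂μ := by
  have hint : ∀ c, Integrable (fun x => g (W c x)) μ := fun c =>
    Integrable.of_bound (hg.comp (hW c).measurable).aestronglyMeasurable K
      (Eventually.of_forall fun x => hK _)
  have h1 : ∀ c, ∫ x, g (W c x) ∂μ = ∫ x, g x ∂μ := by
    intro c
    have h2 := integral_map (μ := μ) (hW c).measurable.aemeasurable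
      (f := g) hg.aestronglyMeasurable
    rw [(hW c).map_eq] at h2
    exact h2.symm
  calc ∫ x, ba L (fun c => g (W c x)) ∂μ
      = ba L fun c => ∫ x, g (W c x) ∂μ := by
        simp only [ba]
        rw [integral_const_mul, integral_finsetSum _ fun c _ => hint c]
    _ = ba L fun _ => ∫ x, g x ∂μ := by simp only [h1]
    _ = _ := ba_const hL _

theorem meas_ba {W : (Fin q → ℕ) → X → X} (hW : ∀ c, MeasurePreserving (W c) μ μ)
    (L : Fin q → ℕ) {g : X → ℝ} (hg : Measurable g) :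
    Measurable fun x => ba L (fun c => g (W c x)) := by
  unfold ba
  exact (Finset.measurable_fun_sum _ fun c _ => hg.comp (hW c).measurable).const_mul _

theorem bound_ba (L : Fin q → ℕ) {g : (Fin q → ℕ) → ℝ} {K : ℝ} (hK0 : 0 ≤ K)
    (h0 : ∀ c, 0 ≤ g c) (hK : ∀ c, g c ≤ K) : |ba L g| ≤ K := by
  rw [abs_of_nonneg (ba_nonneg h0)]
  exact (ba_mono hK).trans (ba_const_le hK0)

/-- From convergence in density to convergence of the integrals. -/
theorem int_tendsto {I : Type} [SemilatticeSup I] [Nonempty I] [Countable I]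
    {W : (Fin q → ℕ) → X → X}
    (hW : ∀ c, MeasurePreserving (W c) μ μ) {g : I → X → ℝ} (hg : ∀ i, Measurable (g i)) {K : ℝ}
    (hg0 : ∀ i x, 0 ≤ g i x) (hK : ∀ i x, g i x ≤ K)
    (h : ∀ᵐ x ∂μ, Tendsto (fun M : I × (Fin q → ℕ) => ba M.2 fun c => g M.1 (W c x)) atTop
      (𝓝 0)) : Tendsto (fun i => ∫ x, g i x ∂μ) atTop (𝓝 0) := by
  have hX : Nonempty X := by
    by_contra hX
    rw [not_nonempty_iff] at hX
    have := (inferInstance : IsProbabilityMeasure μ).measure_univ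
    rw [Set.univ_eq_empty_iff.mpr hX, measure_empty] at this
    exact zero_ne_one this
  have hK0 : 0 ≤ K := (hg0 (Classical.arbitrary I) (Classical.arbitrary X)).trans (hK _ _)
  have h1 : Tendsto (fun M : I × (Fin q → ℕ) => ∫ x, ba M.2 (fun c => g M.1 (W c x)) ∂μ) atTop
      (𝓝 (∫ _x : X, (0 : ℝ) ∂μ)) := by
    refine tendsto_integral_filter_of_dominated_convergence (fun _ => K) ?_ ?_
      (integrable_const _) h
    · exact Eventually.of_forall fun M => (meas_ba hW _ (hg _)).aestronglyMeasurable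
    · exact Eventually.of_forall fun M => Eventually.of_forall fun x =>
        bound_ba _ hK0 (fun c => hg0 _ _) fun c => hK _ _
  rw [integral_zero] at h1
  rw [Metric.tendsto_atTop] at h1 ⊢
  intro ε hε
  obtain ⟨M0, hM0⟩ := h1 ε hε
  refine ⟨M0.1, fun i hi => ?_⟩
  have h2 := hM0 (i, M0.2 + 1) ⟨hi, fun s => by simp⟩
  rwa [int_ba hW (fun s => by simp) (hg i) (K := K) fun x => by
    rw [abs_of_nonneg (hg0 _ _)]; exact hK _ _] at h2

/-- The limit function. -/
theorem lim_exists {A : (Fin p → ℕ) → X → ℂ} (hA : ∀ N, Measurable (A N)) {C : ℝ}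
    (hC0 : 0 ≤ C) (hC : ∀ N x, ‖A N x‖ ≤ C)
    {W : (Fin q → ℕ) → X → X} (hW : ∀ c, MeasurePreserving (W c) μ μ)
    (h : ∀ᵐ x ∂μ, Tendsto (fun M : (Fin p → ℕ) × (Fin p → ℕ) × (Fin q → ℕ) =>
      ba M.2.2 fun c => ‖A M.1 (W c x) - A M.2.1 (W c x)‖ ^ 2) atTop (𝓝 0)) :
    ∃ F : X → ℂ, Measurable F ∧ (∀ x, ‖F x‖ ≤ C) ∧
      Tendsto (fun N => ∫ x, ‖A N x - F x‖ ^ 2 ∂μ) atTop (𝓝 0) ∧
      ∀ᵐ x ∂μ, Tendsto (fun M : (Fin p → ℕ) × (Fin q → ℕ) =>
        ba M.2 fun c => ‖A M.1 (W c x) - F (W c x)‖ ^ 2) atTop (𝓝 0) := by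
  have hsqb : ∀ z w : ℂ, ‖z‖ ≤ C → ‖w‖ ≤ C → ‖z - w‖ ^ 2 ≤ (2 * C) ^ 2 := fun z w hz hw =>
    pow_le_pow_left₀ (norm_nonneg _) ((norm_sub_le _ _).trans (by linarith)) 2
  -- Cauchy in mean square
  have hcau : Tendsto (fun M : (Fin p → ℕ) × (Fin p → ℕ) => ∫ x, ‖A M.1 x - A M.2 x‖ ^ 2 ∂μ) atTop
      (𝓝 0) := by
    refine int_tendsto (I := (Fin p → ℕ) × (Fin p → ℕ)) hW (K := (2 * C) ^ 2)
      (fun M => ((hA _).sub (hA _)).norm.pow_const 2) (fun _ _ => by positivity)
      (fun M x => hsqb _ _ (hC _ _) (hC _ _)) ?_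
    filter_upwards [h] with x hx
    obtain ⟨P, hP⟩ : ∃ P : (Fin p → ℕ) → (Fin p → ℕ) → (Fin q → ℕ) → ℝ, ∀ N N' L,
        P N N' L = ba L fun c => ‖A N (W c x) - A N' (W c x)‖ ^ 2 := ⟨_, fun _ _ _ => rfl⟩
    have hx' : Tendsto (fun M : (Fin p → ℕ) × (Fin p → ℕ) × (Fin q → ℕ) =>
        P M.1 M.2.1 M.2.2) atTop (𝓝 0) := hx.congr fun M => (hP _ _ _).symm
    have hφ : Tendsto (fun M : ((Fin p → ℕ) × (Fin p → ℕ)) × (Fin q → ℕ) =>
        ((M.1.1, M.1.2, M.2) : (Fin p → ℕ) × (Fin p → ℕ) × (Fin q → ℕ))) atTop atTop := by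
      refine tendsto_atTop_atTop.mpr fun b => ⟨((b.1, b.2.1), b.2.2), fun M hM => ?_⟩
      exact ⟨hM.1.1, hM.1.2, hM.2⟩
    have hx2 : Tendsto (fun M : ((Fin p → ℕ) × (Fin p → ℕ)) × (Fin q → ℕ) =>
        P M.1.1 M.1.2 M.2) atTop (𝓝 0) := hx'.comp hφ
    exact hx2.congr fun M => hP _ _ _
  -- a fast subsequence
  have hex : ∀ k : ℕ, ∃ i : ℕ, ∀ n m : ℕ, i ≤ n → i ≤ m →
      ∫ x, ‖A (fun _ => n) x - A (fun _ => m) x‖ ^ 2 ∂μ < ((1 / 2 : ℝ) ^ k / 4) ^ 2 := by
    intro k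
    obtain ⟨M0, hM0⟩ := (Metric.tendsto_atTop.mp hcau) (((1 / 2 : ℝ) ^ k / 4) ^ 2) (by positivity)
    refine ⟨∑ i, M0.1 i + ∑ i, M0.2 i, fun n m hn hm => ?_⟩
    have h1 := hM0 (fun _ => n, fun _ => m) ⟨fun i => ?_, fun i => ?_⟩
    · rw [Real.dist_eq, sub_zero] at h1
      exact (le_abs_self _).trans_lt h1
    · have := Finset.single_le_sum (f := M0.1) (fun _ _ => Nat.zero_le _) (Finset.mem_univ i)
      show M0.1 i ≤ n
      omega
    · have := Finset.single_le_sum (f := M0.2) (fun _ _ => Nat.zero_le _) (Finset.mem_univ i)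
      show M0.2 i ≤ m
      omega
  choose i hi using hex
  set s : ℕ → ℕ := fun k => ∑ j ∈ Finset.range (k + 1), i j + k with hs
  have hsk : ∀ k, k ≤ s k := fun k => by simp [hs]
  have hsi : ∀ k n, k ≤ n → i k ≤ s n := by
    intro k n hkn
    have := Finset.single_le_sum (f := i) (fun _ _ => Nat.zero_le _)
      (Finset.mem_range.mpr (by omega : k < n + 1))
    simp only [hs]
    omega
  have hL1 : ∀ n m : ℕ, ∀ δ : ℝ, 0 < δ → ∫ x, ‖A (fun _ => n) x - A (fun _ => m) x‖ ^ 2 ∂μ < δ ^ 2 →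
      ∫ x, ‖A (fun _ => n) x - A (fun _ => m) x‖ ∂μ < 2 * δ := by
    intro n m δ hδ hlt
    have hint2 : Integrable (fun x => ‖A (fun _ => n) x - A (fun _ => m) x‖ ^ 2) μ :=
      Integrable.of_bound (((hA _).sub (hA _)).norm.pow_const 2).aestronglyMeasurable
        ((2 * C) ^ 2) (Eventually.of_forall fun x => by
          rw [Real.norm_eq_abs, abs_of_nonneg (by positivity)]
          exact hsqb _ _ (hC _ _) (hC _ _))
    have hint1 : Integrable (fun x => ‖A (fun _ => n) x - A (fun _ => m) x‖) μ :=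
      Integrable.of_bound ((hA _).sub (hA _)).norm.aestronglyMeasurable
        (2 * C) (Eventually.of_forall fun x => by
          rw [Real.norm_eq_abs, abs_of_nonneg (norm_nonneg _)]
          exact (norm_sub_le _ _).trans (by linarith [hC (fun _ => n) x, hC (fun _ => m) x]))
    have h1 : ∫ x, ‖A (fun _ => n) x - A (fun _ => m) x‖ ∂μ ≤
        ∫ x, (δ + δ⁻¹ * ‖A (fun _ => n) x - A (fun _ => m) x‖ ^ 2) ∂μ := by
      refine integral_mono hint1 ((integrable_const _).add (hint2.const_mul _)) fun x => ?_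
      simp only
      set t := ‖A (fun _ => n) x - A (fun _ => m) x‖
      have ht : 0 ≤ t := norm_nonneg _
      have e1 : 0 ≤ δ⁻¹ * (t - δ) ^ 2 := by positivity
      have e2 : δ⁻¹ * (t - δ) ^ 2 = δ⁻¹ * t ^ 2 - 2 * t + δ := by
        field_simp
        ring
      rw [e2] at e1
      linarith
    rw [integral_add (integrable_const _) (hint2.const_mul _), integral_const_mul,
      integral_const, probReal_univ, one_smul] at h1
    refine h1.trans_lt ?_
    have e3 : δ⁻¹ * ∫ x, ‖A (fun _ => n) x - A (fun _ => m) x‖ ^ 2 ∂μ < δ⁻¹ * δ ^ 2 :=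
      mul_lt_mul_of_pos_left hlt (by positivity)
    have e4 : δ⁻¹ * δ ^ 2 = δ := by field_simp
    linarith
  have hae : ∀ᵐ x ∂μ, ∃ l : ℂ, Tendsto (fun k => A (fun _ => s k) x) atTop (𝓝 l) := by
    refine Lp.ae_tendsto_of_cauchy_eLpNorm (p := 1) (f := fun k => A fun _ => s k)
      (fun k => (hA _).aestronglyMeasurable) le_rfl
      (B := fun k => ENNReal.ofReal ((1 / 2 : ℝ) ^ k)) ?_ ?_
    · exact (summable_geometric_two).tsum_ofReal_ne_top
    · intro k n m hn hm
      have h1 := hL1 (s n) (s m) ((1 / 2 : ℝ) ^ k / 4) (by positivity)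
        (hi k _ _ (hsi _ _ hn) (hsi _ _ hm))
      have hint1 : Integrable (fun x => A (fun _ => s n) x - A (fun _ => s m) x) μ :=
        Integrable.of_bound ((hA _).sub (hA _)).aestronglyMeasurable
          (2 * C) (Eventually.of_forall fun x => by
            exact (norm_sub_le _ _).trans
              (by linarith [hC (fun _ => s n) x, hC (fun _ => s m) x]))
      rw [eLpNorm_one_eq_lintegral_enorm]
      have h2 := ofReal_integral_norm_eq_lintegral_enorm hint1
      show ∫⁻ x, ‖A (fun _ => s n) x - A (fun _ => s m) x‖ₑ ∂μ < _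
      rw [← h2]
      refine (ENNReal.ofReal_lt_ofReal_iff (by positivity)).mpr (h1.trans_le ?_)
      have : (0 : ℝ) ≤ (1 / 2 : ℝ) ^ k := by positivity
      linarith
  obtain ⟨F0, hF0m, hF0⟩ := measurable_limit_of_tendsto_metrizable_ae (μ := μ)
    (f := fun k => A fun _ => s k) (L := atTop) (fun k => (hA _).aemeasurable) hae
  set F : X → ℂ := fun x => if ‖F0 x‖ ≤ C then F0 x else 0 with hF
  have hFm : Measurable F := Measurable.ite (measurableSet_le hF0m.norm measurable_const) hF0m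
    measurable_const
  have hFC : ∀ x, ‖F x‖ ≤ C := by
    intro x
    rw [hF]
    simp only
    split_ifs with hx
    · exact hx
    · simpa using hC0
  have hFlim : ∀ᵐ x ∂μ, Tendsto (fun k => A (fun _ => s k) x) atTop (𝓝 (F x)) := by
    filter_upwards [hF0] with x hx
    have h1 : ‖F0 x‖ ≤ C := le_of_tendsto hx.norm (Eventually.of_forall fun k => hC _ _)
    rw [hF]
    simp only
    rw [if_pos h1]
    exact hx
  have hall : ∀ᵐ x ∂μ, ∀ c : Fin q → ℕ,
      Tendsto (fun k => A (fun _ => s k) (W c x)) atTop (𝓝 (F (W c x))) := by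
    rw [ae_all_iff]
    intro c
    exact (hW c).quasiMeasurePreserving.ae hFlim
  have hmain : ∀ᵐ x ∂μ, Tendsto (fun M : (Fin p → ℕ) × (Fin q → ℕ) =>
      ba M.2 fun c => ‖A M.1 (W c x) - F (W c x)‖ ^ 2) atTop (𝓝 0) := by
    filter_upwards [h, hall] with x hx1 hx2
    rw [Metric.tendsto_atTop] at hx1 ⊢
    intro ε hε
    obtain ⟨M0, hM0⟩ := hx1 (ε / 2) (by positivity)
    refine ⟨(M0.1, M0.2.2), fun M hM => ?_⟩
    have hlim : Tendsto (fun k => ba M.2 fun c => ‖A M.1 (W c x) - A (fun _ => s k) (W c x)‖ ^ 2)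
        atTop (𝓝 (ba M.2 fun c => ‖A M.1 (W c x) - F (W c x)‖ ^ 2)) := by
      unfold ba
      refine Tendsto.const_mul _ (tendsto_finsetSum _ fun c _ => ?_)
      exact (tendsto_const_nhds.sub (hx2 c)).norm.pow 2
    have hev : ∀ᶠ k in atTop, (ba M.2 fun c =>
        ‖A M.1 (W c x) - A (fun _ => s k) (W c x)‖ ^ 2) ≤ ε / 2 := by
      filter_upwards [eventually_ge_atTop (∑ j, M0.2.1 j)] with k hk
      have h1 := hM0 (M.1, (fun _ => s k), M.2) ⟨hM.1, fun j => ?_, hM.2⟩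
      · rw [Real.dist_eq, sub_zero] at h1
        exact (le_abs_self _).trans h1.le
      · have := Finset.single_le_sum (f := M0.2.1) (fun _ _ => Nat.zero_le _) (Finset.mem_univ j)
        have h2 := hsk k
        show M0.2.1 j ≤ s k
        omega
    have h3 := le_of_tendsto hlim hev
    rw [Real.dist_eq, sub_zero, abs_of_nonneg (ba_nonneg fun c => by positivity)]
    linarith
  refine ⟨F, hFm, hFC, ?_, hmain⟩
  exact int_tendsto (I := Fin p → ℕ) hW (K := (2 * C) ^ 2)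
    (fun N => ((hA _).sub hFm).norm.pow_const 2) (fun _ _ => by positivity)
    (fun N x => hsqb _ _ (hC _ _) (hFC _)) hmain

end Pool.Agent.Y311.DN
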