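import Pool.Agent.Y311.DN.Lim

/-!
# The density theorem for essentially bounded functions
-/

set_option autoImplicit false
set_option linter.unusedSectionVars false
set_option maxHeartbeats 400000

open Filter Topology MeasureTheory ProbabilityTheory
open scoped ENNReal Matrix

noncomputable section

namespace Pool.Agent.Y311.DN

open Pool.Agent.Y311.UB Pool.Agent.W761.Box

/-- The averages with shifts. -/
def avs {H X : Type*} [AddCommGroup H] {p : ℕ} {A : Type*} [Fintype A] (Ψ : H → Equiv.Perm X)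
    (l : Fin p → A → H) (b : A → H) (f : A → X → ℂ) (N : Fin p → ℕ) (y : X) : ℂ :=
  (∏ i, (N i : ℂ))⁻¹ * ∑ n ∈ Fintype.piFinset (fun i => Finset.Icc 1 (N i)),
    ∏ a, f a (Ψ (∑ i, ((n i : ℕ) : ℤ) • l i a + b a) y)

/-- Convergence in density, mean square form. -/
theorem dens {H : Type*} [AddCommGroup H] [Countable H] {p m q : ℕ}
    (l : Fin p → Option (Fin m) → H) (b : Option (Fin m) → H)
    (u : Fin q → H) (a : Fin p → Fin m → Fin q → ℤ) (ha : ∀ i j, l i (some j) = wh u (a i j))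
    {X : Type*} [MeasurableSpace X] {μ : Measure X} [IsProbabilityMeasure μ]
    {Ψ : H → Equiv.Perm X} (hΨ : Act μ Ψ) {f : Option (Fin m) → X → ℂ}
    (hf : ∀ a, MemLp (f a) ∞ μ) :
    ∃ (F : X → ℂ) (C : ℝ), Measurable F ∧ (∀ x, ‖F x‖ ≤ C) ∧
      Tendsto (fun N => ∫ x, ‖avs Ψ l b f N x - F x‖ ^ 2 ∂μ) atTop (𝓝 0) ∧
      ∀ᵐ x ∂μ, Tendsto (fun M : (Fin p → ℕ) × (Fin q → ℕ) =>
        ba M.2 fun c => ‖avs Ψ l b f M.1 (Ψ (wh u fun v => ((c v : ℕ) : ℤ)) x) -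
          F (Ψ (wh u fun v => ((c v : ℕ) : ℤ)) x)‖ ^ 2) atTop (𝓝 0) := by
  choose g hg hfg using fun a => BM_of_memLp' (hf a)
  set f' : Option (Fin m) → X → ℂ := fun a y => g a (Ψ (b a) y) with hf'
  have hf'B : ∀ a, BM (f' a) := by
    intro a
    obtain ⟨h1, C, hC⟩ := hg a
    exact ⟨h1.comp (hΨ.measurable _), C, fun x => hC _⟩
  have hall : ∀ᵐ x ∂μ, ∀ (a : Option (Fin m)) (h : H), f a (Ψ h x) = g a (Ψ h x) := by
    rw [ae_all_iff]
    intro a
    rw [ae_all_iff]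
    intro h
    exact (hΨ.mp h).quasiMeasurePreserving.ae_eq_comp (hfg a)
  have heq : ∀ x, (∀ (a : Option (Fin m)) (h : H), f a (Ψ h x) = g a (Ψ h x)) →
      ∀ (N : Fin p → ℕ) (z : H), avs Ψ l b f N (Ψ z x) = av Ψ l f' N (Ψ z x) := by
    intro x hx N z
    rw [avs, av]
    congr 1
    refine Finset.sum_congr rfl fun n _ => Finset.prod_congr rfl fun a _ => ?_
    rw [hf']
    simp only
    rw [← hΨ.add_apply, hx, ← hΨ.add_apply, ← hΨ.add_apply]
    congr 2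
    abel_nf
  choose hgm C hC using hf'B
  have hC' : ∀ a x, ‖f' a x‖ ≤ |C a| := fun a x => (hC a x).trans (le_abs_self _)
  obtain ⟨F, hFm, hFC, hF1, hF2⟩ := lim_exists (μ := μ) (A := av Ψ l f')
    (fun N => av_meas hΨ l hgm N) (C := ∏ a, |C a|) (Finset.prod_nonneg fun _ _ => abs_nonneg _)
    (fun N x => av_bound Ψ l hC' (fun _ => abs_nonneg _) N x)
    (W := fun c : Fin q → ℕ => (Ψ (wh u fun v => ((c v : ℕ) : ℤ)) : X → X))
    (fun c => hΨ.mp _) (win_conv l u a ha hΨ fun a => ⟨hgm a, C a, hC a⟩)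
  refine ⟨F, ∏ a, |C a|, hFm, hFC, ?_, ?_⟩
  · refine hF1.congr fun N => integral_congr_ae ?_
    filter_upwards [hall] with x hx
    have h1 := heq x hx N 0
    rw [hΨ.zero_apply] at h1
    rw [h1]
  · filter_upwards [hF2, hall] with x hx1 hx2
    refine hx1.congr fun M => ?_
    congr 1
    funext c
    rw [heq x hx2]

/-- Chebyshev. -/
theorem cheb {V : Type} [Fintype V] [DecidableEq V] {M : V → ℕ} (hM : ∀ v, 0 < M v)
    {g : (V → ℕ) → ℝ} {ε : ℝ} (hε : 0 < ε)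
    (h : (ba M fun c => g c ^ 2) ≤ ε ^ 3) :
    (((Fintype.piFinset (fun v => Finset.Icc 1 (M v))).filter fun c => ε ≤ g c).card : ℝ) ≤
      ε * ∏ v, (M v : ℝ) := by
  have hP : 0 < ∏ v, (M v : ℝ) := Finset.prod_pos fun v _ => by
    have := hM v
    positivity
  have h1 : (((Fintype.piFinset (fun v => Finset.Icc 1 (M v))).filter fun c =>
      ε ≤ g c).card : ℝ) * ε ^ 2 ≤ ∑ c ∈ Fintype.piFinset (fun v => Finset.Icc 1 (M v)),
        g c ^ 2 := by
    rw [← nsmul_eq_mul, ← Finset.sum_const]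
    refine (Finset.sum_le_sum fun c hc => ?_).trans
      (Finset.sum_le_sum_of_subset_of_nonneg (Finset.filter_subset _ _) fun c _ _ => sq_nonneg _)
    exact pow_le_pow_left₀ hε.le (Finset.mem_filter.mp hc).2 2
  rw [ba, inv_mul_le_iff₀ hP] at h
  have h2 := h1.trans h
  have h3 : 0 < ε ^ 2 := by positivity
  rw [← mul_le_mul_iff_left₀ h3]
  calc _ ≤ (∏ v, (M v : ℝ)) * ε ^ 3 := h2
    _ = _ := by ring

/-- Convergence in density, counting form. -/
theorem densC {H : Type*} [AddCommGroup H] [Countable H] {p m q : ℕ}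
    (l : Fin p → Option (Fin m) → H) (b : Option (Fin m) → H)
    (u : Fin q → H) (a : Fin p → Fin m → Fin q → ℤ) (ha : ∀ i j, l i (some j) = wh u (a i j))
    {X : Type*} [MeasurableSpace X] {μ : Measure X} [IsProbabilityMeasure μ]
    {Ψ : H → Equiv.Perm X} (hΨ : Act μ Ψ) {f : Option (Fin m) → X → ℂ}
    (hf : ∀ a, MemLp (f a) ∞ μ) :
    ∃ (F : X → ℂ) (C : ℝ), Measurable F ∧ (∀ x, ‖F x‖ ≤ C) ∧
      Tendsto (fun N => ∫ x, ‖avs Ψ l b f N x - F x‖ ^ 2 ∂μ) atTop (𝓝 0) ∧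
      ∀ᵐ x ∂μ, ∀ ε : ℝ, 0 < ε → ∃ K : ℕ, ∀ (N : Fin p → ℕ) (L : Fin q → ℕ),
        (∀ i, K ≤ N i) → (∀ s, K ≤ L s) →
        (((Fintype.piFinset (fun s => Finset.Icc 1 (L s))).filter fun c =>
          ε ≤ ‖avs Ψ l b f N (Ψ (wh u fun v => ((c v : ℕ) : ℤ)) x) -
            F (Ψ (wh u fun v => ((c v : ℕ) : ℤ)) x)‖).card : ℝ) ≤ ε * ∏ s, (L s : ℝ) := by
  obtain ⟨F, C, hFm, hFC, hF1, hF2⟩ := dens l b u a ha hΨ hf
  refine ⟨F, C, hFm, hFC, hF1, ?_⟩
  filter_upwards [hF2] with x hx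
  intro ε hε
  obtain ⟨M0, hM0⟩ := (Metric.tendsto_atTop.mp hx) (ε ^ 3) (by positivity)
  refine ⟨∑ i, M0.1 i + ∑ s, M0.2 s + 1, fun N L hN hL => ?_⟩
  have h1 := hM0 (N, L) ⟨fun i => ?_, fun s => ?_⟩
  · rw [Real.dist_eq, sub_zero] at h1
    refine cheb (fun s => ?_) hε ((le_abs_self _).trans h1.le)
    have := hL s
    omega
  · have h2 := Finset.single_le_sum (f := M0.1) (fun _ _ => Nat.zero_le _) (Finset.mem_univ i)
    have h3 := hN i
    show M0.1 i ≤ N i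
    omega
  · have h2 := Finset.single_le_sum (f := M0.2) (fun _ _ => Nat.zero_le _) (Finset.mem_univ s)
    have h3 := hL s
    show M0.2 s ≤ L s
    omega

end Pool.Agent.Y311.DN
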