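import Pool.Agent.Y311.DN.Red

/-!
# Convergence of the pair correlations of linear averages
-/

set_option autoImplicit false
set_option linter.unusedSectionVars false

open Filter Topology MeasureTheory ProbabilityTheory
open scoped ENNReal

noncomputable section

namespace Pool.Agent.Y311.DN

open Pool.Agent.Y311.UB Pool.Agent.W761.Box

theorem sum_box_sum {α β : Type} [Fintype α] [DecidableEq α] [Fintype β] [DecidableEq β]
    {R : Type*} [AddCommMonoid R] (M : α ⊕ β → ℕ) (F : (α ⊕ β → ℕ) → R) :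
    ∑ m ∈ Fintype.piFinset (fun v => Finset.Icc 1 (M v)), F m =
      ∑ a ∈ Fintype.piFinset (fun v => Finset.Icc 1 (M (Sum.inl v))),
        ∑ b ∈ Fintype.piFinset (fun v => Finset.Icc 1 (M (Sum.inr v))), F (Sum.elim a b) := by
  rw [← Finset.sum_product']
  refine Finset.sum_bij' (fun m _ => (fun v => m (Sum.inl v), fun v => m (Sum.inr v)))
    (fun p _ => Sum.elim p.1 p.2) ?_ ?_ ?_ ?_ ?_
  · intro m hm
    rw [Fintype.mem_piFinset] at hm
    rw [Finset.mem_product, Fintype.mem_piFinset, Fintype.mem_piFinset]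
    exact ⟨fun v => hm _, fun v => hm _⟩
  · intro p hp
    rw [Finset.mem_product, Fintype.mem_piFinset, Fintype.mem_piFinset] at hp
    rw [Fintype.mem_piFinset]
    rintro (v | v)
    · exact hp.1 v
    · exact hp.2 v
  · intro m _
    funext v
    rcases v with v | v <;> rfl
  · intro p _
    rfl
  · intro m _
    congr 1
    funext v
    rcases v with v | v <;> rfl

theorem sum_box_reindex {V : Type} [Fintype V] [DecidableEq V] {k : ℕ} (e : V ≃ Fin k)
    {R : Type*} [AddCommMonoid R] (M : V → ℕ) (F : (V → ℕ) → R) :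
    ∑ m ∈ Fintype.piFinset (fun v => Finset.Icc 1 (M v)), F m =
      ∑ m ∈ Fintype.piFinset (fun l : Fin k => Finset.range (M (e.symm l))),
        F (fun v => m (e v) + 1) := by
  refine Finset.sum_bij' (fun m _ => fun l => m (e.symm l) - 1)
    (fun m _ => fun v => m (e v) + 1) ?_ ?_ ?_ ?_ ?_
  · intro m hm
    rw [Fintype.mem_piFinset] at hm ⊢
    intro l
    have := Finset.mem_Icc.mp (hm (e.symm l))
    rw [Finset.mem_range]
    omega
  · intro m hm
    rw [Fintype.mem_piFinset] at hm ⊢
    intro v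
    have := Finset.mem_range.mp (hm (e v))
    rw [e.symm_apply_apply] at this
    rw [Finset.mem_Icc]
    omega
  · intro m hm
    rw [Fintype.mem_piFinset] at hm
    funext v
    have := Finset.mem_Icc.mp (hm v)
    simp only [e.symm_apply_apply]
    omega
  · intro m _
    funext l
    simp
  · intro m hm
    rw [Fintype.mem_piFinset] at hm
    congr 1
    funext v
    have := Finset.mem_Icc.mp (hm v)
    simp only [e.symm_apply_apply]
    omega

/-- Convergence for reducible families of homomorphisms, bounded measurable functions. -/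
theorem conv_fin {J V G : Type} [Fintype J] [DecidableEq J] [Fintype V] [DecidableEq V]
    [AddCommGroup G] [Countable G] {L : J → (V → ℤ) →+ G} (hL : RedG L)
    {X : Type*} [MeasurableSpace X] {μ : Measure X} [IsProbabilityMeasure μ]
    {Φ : G → Equiv.Perm X} (hΦ : Act μ Φ) {F : J → X → ℂ} (hF : ∀ j, BM (F j)) :
    ∀ᵐ x ∂μ, ∃ c : ℂ, Tendsto (fun M : V → ℕ => (∏ v, (M v : ℂ))⁻¹ *
      ∑ m ∈ Fintype.piFinset (fun v => Finset.Icc 1 (M v)),
        ∏ j, F j (Φ (L j (fun v => ((m v : ℕ) : ℤ))) x)) atTop (𝓝 c) := by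
  classical
  set e := Fintype.equivFin V with he
  let D : (Fin (Fintype.card V) → ℤ) →+ (V → ℤ) :=
    { toFun := fun m v => m (e v)
      map_zero' := rfl
      map_add' := fun _ _ => rfl }
  have hD : Function.Surjective D := by
    intro y
    refine ⟨fun l => y (e.symm l), ?_⟩
    funext v
    show y (e.symm (e v)) = y v
    rw [e.symm_apply_apply]
  have hred := redG_comp hL hD
  have hG : ∀ j, BM (fun x => F j (Φ (L j 1) x)) := by
    intro j
    obtain ⟨h1, C, hC⟩ := hF j
    exact ⟨h1.comp (hΦ.mp _).measurable, C, fun x => hC _⟩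
  have hmain := conv_cplx (conv_redG hred) hΦ hG
  filter_upwards [hmain] with x hx
  obtain ⟨c, hc⟩ := hx
  have hφ : Tendsto (fun M : V → ℕ => fun l => M (e.symm l)) atTop atTop := by
    refine tendsto_atTop_atTop.mpr fun b => ⟨fun v => b (e v), fun M hM l => ?_⟩
    have := hM (e.symm l)
    simpa using this
  refine ⟨c, (hc.comp hφ).congr fun M => ?_⟩
  rw [Function.comp_apply, bxc, sum_box_reindex e]
  congr 1
  · congr 1
    exact Fintype.prod_equiv e.symm _ _ fun l => rfl
  · refine Finset.sum_congr rfl fun m _ => Finset.prod_congr rfl fun j _ => ?_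
    congr 1
    show Φ (L j 1) (Φ (L j (D (cz m))) x) = _
    rw [← hΦ.add_apply, ← map_add]
    congr 3
    funext v
    show (1 : ℤ) + (m (e v) : ℤ) = ((m (e v) + 1 : ℕ) : ℤ)
    push_cast
    ring

/-- The averages. -/
def av {H X : Type*} [AddCommGroup H] {p : ℕ} {A : Type*} [Fintype A] (Ψ : H → Equiv.Perm X)
    (l : Fin p → A → H) (f : A → X → ℂ) (N : Fin p → ℕ) (y : X) : ℂ :=
  (∏ i, (N i : ℂ))⁻¹ * ∑ n ∈ Fintype.piFinset (fun i => Finset.Icc 1 (N i)),
    ∏ a, f a (Ψ (∑ i, ((n i : ℕ) : ℤ) • l i a) y)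

/-- The two copies. -/
def prj {p : ℕ} : Fin p ⊕ Fin p → Fin p := Sum.elim id id

/-- The base variables. -/
abbrev Bas (p m q : ℕ) : Type := ((Fin p ⊕ Fin p) × Fin m) ⊕ Fin q

/-- The homomorphism of the base variables. -/
def bas {H : Type*} [AddCommGroup H] {p m q : ℕ} (l : Fin p → Option (Fin m) → H)
    (u : Fin q → H) : (Bas p m q → ℤ) →+ H where
  toFun x := ∑ c, ∑ i, x (Sum.inl (c, i)) • l (prj c) (some i) + ∑ s, x (Sum.inr s) • u s
  map_zero' := by simp
  map_add' x y := by
    simp only [Pi.add_apply, add_smul, Finset.sum_add_distrib]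
    abel

/-- The lifted group. -/
abbrev Gp (p m q : ℕ) : Type := (Fin p ⊕ Fin p → Option (Fin m) → ℤ) × (Fin q → ℤ)

/-- The homomorphism of the lifted group. -/
def hG {H : Type*} [AddCommGroup H] {p m q : ℕ} (l : Fin p → Option (Fin m) → H)
    (u : Fin q → H) : Gp p m q →+ H where
  toFun g := ∑ c, ∑ a, g.1 c a • l (prj c) a + ∑ s, g.2 s • u s
  map_zero' := by simp
  map_add' x y := by
    simp only [Prod.fst_add, Prod.snd_add, Pi.add_apply, add_smul, Finset.sum_add_distrib]
    abel

/-- The change of variables. -/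
def chg (p m q : ℕ) : (Bas p m q ⊕ (Fin p ⊕ Fin p) → ℤ) →+
    (((Fin p ⊕ Fin p) × Option (Fin m)) ⊕ Fin q → ℤ) where
  toFun x := Sum.elim
    (fun z => z.2.elim (x (Sum.inr z.1)) fun i => x (Sum.inl (Sum.inl (z.1, i))))
    fun s => x (Sum.inl (Sum.inr s))
  map_zero' := by
    funext v
    rcases v with ⟨c, _ | i⟩ | s <;> rfl
  map_add' x y := by
    funext v
    rcases v with ⟨c, _ | i⟩ | s <;> rfl

theorem chg_surj (p m q : ℕ) : Function.Surjective (chg p m q) := by
  intro y
  refine ⟨Sum.elim (Sum.elim (fun z => y (Sum.inl (z.1, some z.2))) fun s => y (Sum.inr s))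
    fun c => y (Sum.inl (c, none)), ?_⟩
  funext v
  rcases v with ⟨c, _ | i⟩ | s <;> rfl

/-- The family. -/
def fam (p m q : ℕ) (σ : Fin p ⊕ Fin p → Option (Option (Fin m))) :
    (Bas p m q ⊕ (Fin p ⊕ Fin p) → ℤ) →+ Gp p m q :=
  (winHom (Fin q) (piHom (oneHom m) σ)).comp (chg p m q)

theorem fam_red (p m q : ℕ) : RedG (fam p m q) :=
  redG_comp (redG_win (Fin q) (redG_pi (redG_one m))) (chg_surj p m q)

theorem hG_fam {H : Type*} [AddCommGroup H] {p m q : ℕ} (l : Fin p → Option (Fin m) → H)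
    (u : Fin q → H) (σ : Fin p ⊕ Fin p → Option (Option (Fin m)))
    (x : Bas p m q ⊕ (Fin p ⊕ Fin p) → ℤ) :
    hG l u (fam p m q σ x) = bas l u (fun v => x (Sum.inl v)) +
      ∑ c, (σ c).elim 0 fun a => x (Sum.inr c) • l (prj c) a := by
  classical
  show ∑ c, ∑ a, oneHom m (σ c) (fun z => chg p m q x (Sum.inl (c, z))) a • l (prj c) a +
    ∑ s, x (Sum.inl (Sum.inr s)) • u s =
    (∑ c, ∑ i, x (Sum.inl (Sum.inl (c, i))) • l (prj c) (some i) +
      ∑ s, x (Sum.inl (Sum.inr s)) • u s) + _
  have key : ∀ c, ∑ a, oneHom m (σ c) (fun z => chg p m q x (Sum.inl (c, z))) a • l (prj c) a =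
      ∑ i, x (Sum.inl (Sum.inl (c, i))) • l (prj c) (some i) +
        (σ c).elim 0 fun a => x (Sum.inr c) • l (prj c) a := by
    intro c
    have h0 : ∑ a, Function.update (fun z => chg p m q x (Sum.inl (c, z))) none 0 a •
        l (prj c) a = ∑ i, x (Sum.inl (Sum.inl (c, i))) • l (prj c) (some i) := by
      rw [Fintype.sum_option, Function.update_self, zero_smul, zero_add]
      refine Finset.sum_congr rfl fun i _ => ?_
      rw [Function.update_of_ne (by simp)]
      rfl
    rcases hσ : σ c with _ | a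
    · rw [oneHom_none, h0]
      simp
    · rw [oneHom_some]
      simp only [Pi.add_apply, add_smul, Finset.sum_add_distrib]
      rw [h0]
      congr 1
      rw [Finset.sum_eq_single a]
      · rw [Pi.single_eq_same]
        rfl
      · intro b _ hb
        rw [Pi.single_eq_of_ne hb, zero_smul]
      · intro h
        exact absurd (Finset.mem_univ _) h
  rw [Finset.sum_congr rfl fun c _ => key c, Finset.sum_add_distrib]
  abel

/-- The positions of the functions. -/
def sL {p m : ℕ} (a : Option (Fin m)) : Fin p ⊕ Fin p → Option (Option (Fin m)) :=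
  Sum.elim (fun _ => some a) fun _ => none

/-- The positions of the conjugate functions. -/
def sR {p m : ℕ} (a : Option (Fin m)) : Fin p ⊕ Fin p → Option (Option (Fin m)) :=
  Sum.elim (fun _ => none) fun _ => some a

theorem BM_prod {X ι : Type*} [MeasurableSpace X] (s : Finset ι) {f : ι → X → ℂ}
    (hf : ∀ i, BM (f i)) : BM (fun x => ∏ i ∈ s, f i x) := by
  choose h1 C hC using hf
  refine ⟨Finset.measurable_fun_prod _ fun i _ => h1 i, ∏ i ∈ s, |C i|, fun x => ?_⟩
  rw [norm_prod]
  exact Finset.prod_le_prod (fun i _ => norm_nonneg _) fun i _ => (hC i x).trans (le_abs_self _)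

theorem BM_mul {X : Type*} [MeasurableSpace X] {f g : X → ℂ} (hf : BM f) (hg : BM g) :
    BM (fun x => f x * g x) := by
  obtain ⟨h1, C, hC⟩ := hf
  obtain ⟨h2, D, hD⟩ := hg
  refine ⟨h1.mul h2, C * D, fun x => ?_⟩
  rw [norm_mul]
  exact mul_le_mul (hC x) (hD x) (norm_nonneg _) ((norm_nonneg _).trans (hC x))

theorem BM_conj {X : Type*} [MeasurableSpace X] {f : X → ℂ} (hf : BM f) :
    BM (fun x => (starRingEnd ℂ) (f x)) := by
  obtain ⟨h1, C, hC⟩ := hf
  refine ⟨Complex.continuous_conj.measurable.comp h1, C, fun x => ?_⟩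
  rw [RCLike.norm_conj]
  exact hC x

/-- Pair correlations converge. -/
theorem pair_conv {H : Type*} [AddCommGroup H] {p m q : ℕ} (l : Fin p → Option (Fin m) → H)
    (u : Fin q → H) {X : Type*} [MeasurableSpace X] {μ : Measure X} [IsProbabilityMeasure μ]
    {Ψ : H → Equiv.Perm X} (hΨ : Act μ Ψ) {f : Option (Fin m) → X → ℂ} (hf : ∀ a, BM (f a)) :
    ∀ᵐ x ∂μ, ∃ c : ℂ, Tendsto (fun M : Bas p m q ⊕ (Fin p ⊕ Fin p) → ℕ =>
      (∏ v, (M (Sum.inl v) : ℂ))⁻¹ *
      ∑ b ∈ Fintype.piFinset (fun v => Finset.Icc 1 (M (Sum.inl v))),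
        av Ψ l f (fun i => M (Sum.inr (Sum.inl i))) (Ψ (bas l u fun v => ((b v : ℕ) : ℤ)) x) *
        (starRingEnd ℂ) (av Ψ l f (fun i => M (Sum.inr (Sum.inr i)))
          (Ψ (bas l u fun v => ((b v : ℕ) : ℤ)) x))) atTop (𝓝 c) := by
  classical
  have hact : Act μ fun g : Gp p m q => Ψ (hG l u g) := by
    refine ⟨fun a b => ?_, ?_, fun a => hΨ.mp _⟩
    · rw [map_add, hΨ.add]
    · rw [map_zero, hΨ.zero]
  set F : (Fin p ⊕ Fin p → Option (Option (Fin m))) → X → ℂ := fun σ y =>
    (∏ a, if σ = sL a then f a y else 1) *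
      ∏ a, if σ = sR a then (starRingEnd ℂ) (f a y) else 1 with hF
  have hFB : ∀ σ, BM (F σ) := by
    intro σ
    refine BM_mul (BM_prod _ fun a => ?_) (BM_prod _ fun a => ?_)
    · by_cases h : σ = sL a
      · simp only [h, if_true]
        exact hf a
      · simp only [h, if_false]
        exact ⟨measurable_const, 1, fun x => by simp⟩
    · by_cases h : σ = sR a
      · simp only [h, if_true]
        exact BM_conj (hf a)
      · simp only [h, if_false]
        exact ⟨measurable_const, 1, fun x => by simp⟩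
  have hmain := conv_fin (fam_red p m q) hact hFB
  filter_upwards [hmain] with x hx
  obtain ⟨c, hc⟩ := hx
  refine ⟨c, hc.congr fun M => ?_⟩
  rw [Fintype.prod_sum_type, sum_box_sum, mul_inv, mul_assoc, Finset.mul_sum]
  congr 1
  refine Finset.sum_congr rfl fun b _ => ?_
  rw [Fintype.prod_sum_type, sum_box_sum, mul_inv, av, av, map_mul, map_inv₀, map_prod]
  simp only [Complex.conj_natCast]
  rw [mul_mul_mul_comm]
  congr 1
  rw [map_sum, Finset.sum_mul_sum]
  refine Finset.sum_congr rfl fun n _ => Finset.sum_congr rfl fun n' _ => ?_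
  rw [hF]
  simp only
  rw [Finset.prod_mul_distrib, Finset.prod_comm, Finset.prod_comm (f := fun σ a => if σ = sR a
    then (starRingEnd ℂ) (f a _) else 1), map_prod]
  congr 1
  · refine Finset.prod_congr rfl fun a _ => ?_
    rw [Finset.prod_ite_eq' Finset.univ (sL a), if_pos (Finset.mem_univ _), hG_fam, add_comm,
      hΨ.add_apply]
    congr 2
    rw [Fintype.sum_sum_type]
    simp [sL, prj]
  · refine Finset.prod_congr rfl fun a _ => ?_
    rw [Finset.prod_ite_eq' Finset.univ (sR a), if_pos (Finset.mem_univ _), hG_fam, add_comm,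
      hΨ.add_apply]
    congr 3
    rw [Fintype.sum_sum_type]
    simp [sR, prj]

end Pool.Agent.Y311.DN
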