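import Pool.Agent.Y311.UB.Fam

/-!
# Reducible families of homomorphisms: products, windows, change of variables
-/

set_option autoImplicit false
set_option linter.unusedSectionVars false

open Filter Topology MeasureTheory ProbabilityTheory
open scoped ENNReal

noncomputable section

namespace Pool.Agent.Y311.DN

open Pool.Agent.Y311.UB Pool.Agent.W761.Box

/-- The elimination condition for homomorphisms. -/
def RedG {J V G : Type} [AddCommGroup G] (L : J → (V → ℤ) →+ G) : Prop :=
  ∃ r : J → ℕ, ∀ j, ∃ (s : ℕ) (v : Fin s → V → ℤ) (lam : Fin s → G →+ ℤ),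
    (∀ a b, lam a (L j (v b)) = if a = b then 1 else 0) ∧
    (∀ i, i ≠ j → r i ≤ r j → ∃ a, L i (v a) = 0) ∧
    (∀ a, ∃ i, r i < r j ∧ ∃ κ : (V → ℤ) → ℤ, ∀ m, L j m = L i m + κ m • L j (v a))

/-- Directions indexed by a finite type. -/
theorem redG_dir {J V G : Type} [AddCommGroup G] {L : J → (V → ℤ) →+ G} {r : J → ℕ} {j : J}
    {ι : Type} [Fintype ι] [DecidableEq ι] (v : ι → V → ℤ) (lam : ι → G →+ ℤ)
    (h1 : ∀ a b, lam a (L j (v b)) = if a = b then 1 else 0)
    (h2 : ∀ i, i ≠ j → r i ≤ r j → ∃ a, L i (v a) = 0)
    (h3 : ∀ a, ∃ i, r i < r j ∧ ∃ κ : (V → ℤ) → ℤ, ∀ m, L j m = L i m + κ m • L j (v a)) :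
    ∃ (s : ℕ) (v : Fin s → V → ℤ) (lam : Fin s → G →+ ℤ),
      (∀ a b, lam a (L j (v b)) = if a = b then 1 else 0) ∧
      (∀ i, i ≠ j → r i ≤ r j → ∃ a, L i (v a) = 0) ∧
      (∀ a, ∃ i, r i < r j ∧ ∃ κ : (V → ℤ) → ℤ, ∀ m, L j m = L i m + κ m • L j (v a)) := by
  let e := Fintype.equivFin ι
  refine ⟨Fintype.card ι, fun a => v (e.symm a), fun a => lam (e.symm a), ?_, ?_, ?_⟩
  · intro a b
    rw [h1]
    by_cases hab : a = b
    · rw [if_pos hab, if_pos (by rw [hab])]
    · rw [if_neg hab, if_neg (fun h => hab (e.symm.injective h))]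
  · intro i hi hr
    obtain ⟨a, ha⟩ := h2 i hi hr
    refine ⟨e a, ?_⟩
    simp only [Equiv.symm_apply_apply]
    exact ha
  · intro a
    exact h3 _

theorem conv_redG {J G : Type} [Fintype J] [DecidableEq J] [AddCommGroup G] {k : ℕ}
    {L : J → (Fin k → ℤ) →+ G} (hL : RedG L) : Conv L (Finset.univ : Finset J) := by
  classical
  obtain ⟨r, hr⟩ := hL
  have key : ∀ (t : ℕ) (E : Finset J), E.card = t → (∀ j ∈ E, ∀ i, r i < r j → i ∈ E) →
      Conv L E := by
    intro t
    induction t with
    | zero =>
      intro E hE _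
      rw [Finset.card_eq_zero] at hE
      rw [hE]
      exact conv_empty _
    | succ t ih =>
      intro E hE hinit
      have hne : E.Nonempty := Finset.card_pos.mp (by omega)
      obtain ⟨j0, hj0, hmax⟩ := Finset.exists_max_image E r hne
      have ihE : Conv L (E.erase j0) := by
        apply ih
        · rw [Finset.card_erase_of_mem hj0]
          omega
        · intro j hj i hij
          refine Finset.mem_erase.mpr ⟨?_, hinit j (Finset.mem_of_mem_erase hj) i hij⟩
          rintro rfl
          have := hmax j (Finset.mem_of_mem_erase hj)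
          omega
      by_cases hsing : ∃ i, i ≠ j0 ∧ r i ≤ r j0 ∧ i ∈ E
      · obtain ⟨i0, hi0, hri0, hi0E⟩ := hsing
        obtain ⟨s, v, lam, h1, h2, h3⟩ := hr j0
        obtain ⟨a0, _⟩ := h2 i0 hi0 hri0
        refine elim (ι := Fin s) L hj0 (fun a => L j0 (v a))
          lam v (List.finRange s) ?_ (List.nodup_finRange s) ?_ ?_ ?_ ?_ ?_ ihE
        · intro h0
          have := List.mem_finRange a0
          rw [h0] at this
          exact List.not_mem_nil this
        · intro a _
          have := h1 a a
          rwa [if_pos rfl] at this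
        · intro a _ b _ hab
          have := h1 a b
          rwa [if_neg hab] at this
        · intro a _
          rfl
        · intro j hjE hj
          obtain ⟨a, ha⟩ := h2 j hj (hmax j hjE)
          exact ⟨a, List.mem_finRange a, ha⟩
        · intro a _
          obtain ⟨i, hi, κ, hκ⟩ := h3 a
          refine ⟨i, hinit j0 hj0 i hi, ?_, κ, hκ⟩
          rintro rfl
          omega
      · have hE1 : E = {j0} := by
          ext i
          rw [Finset.mem_singleton]
          constructor
          · intro hi
            by_contra hij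
            exact hsing ⟨i, hij, hmax i hi, hi⟩
          · rintro rfl
            exact hj0
        rw [hE1]
        exact conv_single _ j0
  exact key _ Finset.univ rfl fun _ _ _ _ => Finset.mem_univ _

/-- Change of variables. -/
theorem redG_comp {J V W G : Type} [AddCommGroup G] {L : J → (V → ℤ) →+ G} (hL : RedG L)
    {D : (W → ℤ) →+ (V → ℤ)} (hD : Function.Surjective D) : RedG fun j => (L j).comp D := by
  obtain ⟨r, hr⟩ := hL
  refine ⟨r, fun j => ?_⟩
  obtain ⟨s, v, lam, h1, h2, h3⟩ := hr j
  choose v' hv' using fun a => hD (v a)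
  refine ⟨s, v', lam, ?_, ?_, ?_⟩
  · intro a b
    rw [AddMonoidHom.comp_apply, hv']
    exact h1 a b
  · intro i hi hir
    obtain ⟨a, ha⟩ := h2 i hi hir
    exact ⟨a, by rw [AddMonoidHom.comp_apply, hv']; exact ha⟩
  · intro a
    obtain ⟨i, hi, κ, hκ⟩ := h3 a
    refine ⟨i, hi, fun m => κ (D m), fun m => ?_⟩
    rw [AddMonoidHom.comp_apply, AddMonoidHom.comp_apply, AddMonoidHom.comp_apply, hv']
    exact hκ _

/-- The homomorphism with additional window variables. -/
def winHom {V G : Type} [AddCommGroup G] (Q : Type) (l : (V → ℤ) →+ G) :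
    (V ⊕ Q → ℤ) →+ G × (Q → ℤ) where
  toFun m := (l fun v => m (Sum.inl v), fun q => m (Sum.inr q))
  map_zero' := by
    ext
    · exact l.map_zero
    · rfl
  map_add' a b := by
    ext
    · exact l.map_add _ _
    · rfl

theorem redG_win {J V G : Type} (Q : Type) [AddCommGroup G] {L : J → (V → ℤ) →+ G}
    (hL : RedG L) : RedG fun j => winHom Q (L j) := by
  obtain ⟨r, hr⟩ := hL
  refine ⟨r, fun j => ?_⟩
  obtain ⟨s, v, lam, h1, h2, h3⟩ := hr j
  refine ⟨s, fun a => Sum.elim (v a) 0, fun a => (lam a).comp (AddMonoidHom.fst G (Q → ℤ)),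
    ?_, ?_, ?_⟩
  · intro a b
    exact h1 a b
  · intro i hi hir
    obtain ⟨a, ha⟩ := h2 i hi hir
    exact ⟨a, Prod.ext ha rfl⟩
  · intro a
    obtain ⟨i, hi, κ, hκ⟩ := h3 a
    refine ⟨i, hi, fun m => κ fun v => m (Sum.inl v), fun m => ?_⟩
    refine Prod.ext (hκ _) ?_
    show (fun q => m (Sum.inr q)) = (fun q => m (Sum.inr q)) + (κ fun v => m (Sum.inl v)) •
      (fun _ : Q => (0 : ℤ))
    funext q
    simp

/-- The product family. -/
def piHom {C J V G : Type} [AddCommGroup G] (L : J → (V → ℤ) →+ G) (σ : C → J) :
    (C × V → ℤ) →+ (C → G) where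
  toFun m c := L (σ c) fun v => m (c, v)
  map_zero' := by
    funext c
    exact (L (σ c)).map_zero
  map_add' a b := by
    funext c
    exact (L (σ c)).map_add _ _

theorem piHom_apply {C J V G : Type} [AddCommGroup G] (L : J → (V → ℤ) →+ G) (σ : C → J)
    (m : C × V → ℤ) (c : C) : piHom L σ m c = L (σ c) fun v => m (c, v) := rfl

theorem redG_pi {C J V G : Type} [Fintype C] [AddCommGroup G]
    {L : J → (V → ℤ) →+ G} (hL : RedG L) : RedG fun σ : C → J => piHom L σ := by
  classical
  obtain ⟨r, hr⟩ := hL
  choose s v lam h1 h2 h3 using hr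
  refine ⟨fun σ => ∑ c, r (σ c), fun σ => ?_⟩
  -- the vectors
  set w : ((c : C) × Fin (s (σ c))) → C × V → ℤ := fun a p =>
    if p.1 = a.1 then v (σ a.1) a.2 p.2 else 0 with hw
  have hws : ∀ a : (c : C) × Fin (s (σ c)), (fun x => w a (a.1, x)) = v (σ a.1) a.2 := by
    intro a
    funext x
    simp [hw]
  have hwn : ∀ (a : (c : C) × Fin (s (σ c))) (c : C), c ≠ a.1 → (fun x => w a (c, x)) = 0 := by
    intro a c hc
    funext x
    simp [hw, hc]
  refine redG_dir (ι := (c : C) × Fin (s (σ c))) w
    (fun a => (lam (σ a.1) a.2).comp (Pi.evalAddMonoidHom (fun _ : C => G) a.1)) ?_ ?_ ?_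
  · rintro ⟨c, a⟩ ⟨c', b⟩
    show lam (σ c) a (piHom L σ (w ⟨c', b⟩) c) = _
    rw [piHom_apply]
    by_cases hcc : c = c'
    · subst hcc
      rw [hws ⟨c, b⟩, h1]
      by_cases hab : a = b
      · subst hab
        simp
      · rw [if_neg hab, if_neg]
        intro h
        simp only [Sigma.mk.injEq, heq_eq_eq, true_and] at h
        exact hab h
    · rw [hwn ⟨c', b⟩ c hcc, map_zero, map_zero, if_neg]
      intro h
      exact hcc (congrArg Sigma.fst h)
  · intro τ hτ hle
    obtain ⟨c, hc, hcr⟩ : ∃ c, τ c ≠ σ c ∧ r (τ c) ≤ r (σ c) := by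
      by_contra hcon
      push Not at hcon
      have hex : ∃ c, τ c ≠ σ c := by
        by_contra h
        push Not at h
        exact hτ (funext h)
      obtain ⟨c0, hc0⟩ := hex
      have : ∑ c, r (σ c) < ∑ c, r (τ c) := by
        refine Finset.sum_lt_sum (fun c _ => ?_) ⟨c0, Finset.mem_univ _, hcon c0 hc0⟩
        by_cases h : τ c = σ c
        · rw [h]
        · exact (hcon c h).le
      omega
    obtain ⟨a, ha⟩ := h2 (σ c) (τ c) hc hcr
    refine ⟨⟨c, a⟩, ?_⟩
    funext c'
    rw [piHom_apply]
    by_cases hcc : c' = c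
    · subst hcc
      rw [hws ⟨c', a⟩]
      exact ha
    · rw [hwn ⟨c, a⟩ c' hcc, map_zero]
      rfl
  · rintro ⟨c, a⟩
    obtain ⟨i, hi, κ, hκ⟩ := h3 (σ c) a
    refine ⟨Function.update σ c i, ?_, fun m => κ fun x => m (c, x), fun m => ?_⟩
    · refine Finset.sum_lt_sum (fun c' _ => ?_) ⟨c, Finset.mem_univ _, ?_⟩
      · by_cases h : c' = c
        · subst h
          rw [Function.update_self]
          exact hi.le
        · rw [Function.update_of_ne h]
      · rw [Function.update_self]
        exact hi
    · funext c'
      rw [Pi.add_apply, Pi.smul_apply, piHom_apply, piHom_apply, piHom_apply]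
      by_cases h : c' = c
      · subst h
        rw [Function.update_self, hws ⟨c', a⟩]
        exact hκ _
      · rw [Function.update_of_ne h, hwn ⟨c, a⟩ c' h, map_zero, smul_zero, add_zero]

/-- The one coordinate family. -/
def oneHom (m : ℕ) : Option (Option (Fin m)) → (Option (Fin m) → ℤ) →+ (Option (Fin m) → ℤ)
  | none =>
    { toFun := fun x => Function.update x none 0
      map_zero' := by
        funext a
        by_cases h : a = none
        · subst h; simp
        · rw [Function.update_of_ne h]
      map_add' := fun x y => by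
        funext a
        by_cases h : a = none
        · subst h; simp
        · simp [Function.update_of_ne h] }
  | some a =>
    { toFun := fun x => Function.update x none 0 + Pi.single a (x none)
      map_zero' := by
        funext b
        by_cases h : b = none
        · subst h; simp
        · simp [Function.update_of_ne h]
      map_add' := fun x y => by
        funext b
        rw [Pi.add_apply, Pi.add_apply, Pi.add_apply, Pi.add_apply, Pi.add_apply, Pi.single_add,
          Pi.add_apply]
        by_cases h : b = none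
        · subst h; simp
        · simp only [Function.update_of_ne h, Pi.add_apply]
          ring }

theorem oneHom_none (m : ℕ) (x : Option (Fin m) → ℤ) :
    oneHom m none x = Function.update x none 0 := rfl

theorem oneHom_some (m : ℕ) (a : Option (Fin m)) (x : Option (Fin m) → ℤ) :
    oneHom m (some a) x = Function.update x none 0 + Pi.single a (x none) := rfl

/-- The rank of a letter. -/
def rk {m : ℕ} : Option (Fin m) → ℕ
  | none => m + 1
  | some i => i.val + 1

theorem rk_inj {m : ℕ} : Function.Injective (rk (m := m)) := by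
  rintro (_ | a) (_ | b) h
  · rfl
  · have := b.isLt
    have h' : m + 1 = b.val + 1 := h
    omega
  · have := a.isLt
    have h' : a.val + 1 = m + 1 := h
    omega
  · have h' : a.val + 1 = b.val + 1 := h
    congr 1
    exact Fin.ext (by omega)

theorem rk_le {m : ℕ} (a : Option (Fin m)) : rk a ≤ m + 1 := by
  rcases a with _ | a
  · exact le_rfl
  · have := a.isLt
    simp only [rk]
    omega

theorem rk_pos {m : ℕ} (a : Option (Fin m)) : 0 < rk a := by
  rcases a with _ | a <;> simp [rk]

/-- The rank in the one coordinate family. -/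
def rk1 {m : ℕ} : Option (Option (Fin m)) → ℕ
  | none => 0
  | some a => rk a

theorem ne_none_of_rk {m : ℕ} {a b : Option (Fin m)} (h : rk b < rk a) : b ≠ none := by
  rintro rfl
  have h1 := rk_le a
  have h2 : m + 1 < rk a := h
  omega

theorem redG_one (m : ℕ) : RedG (oneHom m) := by
  classical
  refine ⟨rk1, ?_⟩
  rintro (_ | a)
  · refine ⟨0, Fin.elim0, Fin.elim0, fun a => a.elim0, ?_, fun a => a.elim0⟩
    rintro (_ | b) hi hr
    · exact absurd rfl hi
    · have := rk_pos b
      simp only [rk1] at hr
      omega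
  · -- directions: none and the lower letters
    obtain ⟨w, hwa, hwb⟩ : ∃ w : Option {b : Option (Fin m) // rk b < rk a} →
        Option (Fin m) → ℤ, w none = Pi.single none 1 ∧
        ∀ b, w (some b) = Pi.single none 1 - Pi.single b.1 1 :=
      ⟨fun z => z.elim (Pi.single none 1) fun b => Pi.single none 1 - Pi.single b.1 1,
        rfl, fun _ => rfl⟩
    have hw0 : ∀ z, w z none = 1 := by
      rintro (_ | ⟨b, hb⟩)
      · rw [hwa, Pi.single_eq_same]
      · rw [hwb, Pi.sub_apply, Pi.single_eq_same, Pi.single_eq_of_ne (ne_none_of_rk hb).symm,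
          sub_zero]
    have hwn : oneHom m (some a) (w none) = Pi.single a 1 := by
      rw [oneHom_some, hw0]
      have : Function.update (w none) none 0 = 0 := by
        funext c
        by_cases h : c = none
        · subst h; simp
        · simp [Function.update_of_ne h, hwa, Pi.single_eq_of_ne h]
      rw [this, zero_add]
    have hws' : ∀ b : {b : Option (Fin m) // rk b < rk a},
        Function.update (w (some b)) none 0 = -Pi.single b.1 1 := by
      intro b
      funext c
      by_cases h : c = none
      · subst h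
        simp [Pi.single_eq_of_ne (ne_none_of_rk b.2).symm]
      · simp [Function.update_of_ne h, hwb, Pi.single_eq_of_ne h]
    have hws : ∀ b : {b : Option (Fin m) // rk b < rk a},
        oneHom m (some a) (w (some b)) = Pi.single a 1 - Pi.single b.1 1 := by
      intro b
      rw [oneHom_some, hw0, hws']
      abel
    have hne : ∀ b : {b : Option (Fin m) // rk b < rk a}, b.1 ≠ a := by
      intro b h
      have := b.2
      rw [h] at this
      exact lt_irrefl _ this
    obtain ⟨lam, hln, hls⟩ : ∃ lam : Option {b : Option (Fin m) // rk b < rk a} →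
        (Option (Fin m) → ℤ) →+ ℤ,
        (∀ y, lam none y = y a + ∑ b : {b : Option (Fin m) // rk b < rk a}, y b.1) ∧
        ∀ b y, lam (some b) y = -y b.1 := by
      refine ⟨fun z => z.elim (Pi.evalAddMonoidHom (fun _ => ℤ) a +
          ∑ b : {b : Option (Fin m) // rk b < rk a}, Pi.evalAddMonoidHom (fun _ => ℤ) b.1)
        fun b => -Pi.evalAddMonoidHom (fun _ => ℤ) b.1, fun y => ?_, fun b y => ?_⟩
      · simp
      · simp
    refine redG_dir w lam ?_ ?_ ?_
    · rintro (_ | b) (_ | c)
      · rw [hln, hwn, if_pos rfl, Pi.single_eq_same, Finset.sum_eq_zero, add_zero]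
        intro b _
        exact Pi.single_eq_of_ne (hne b) _
      · rw [hln, hws, if_neg (by simp)]
        simp only [Pi.sub_apply, Pi.single_eq_same, Finset.sum_sub_distrib]
        rw [Pi.single_eq_of_ne (hne c).symm, Finset.sum_eq_zero (fun b _ =>
          Pi.single_eq_of_ne (hne b) _), Finset.sum_eq_single c]
        · rw [Pi.single_eq_same]; norm_num
        · intro b _ hbc
          exact Pi.single_eq_of_ne (fun h => hbc (Subtype.ext h)) _
        · intro h
          exact absurd (Finset.mem_univ _) h
      · rw [hls, hwn, Pi.single_eq_of_ne (hne b), if_neg (by simp), neg_zero]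
      · rw [hls, hws, Pi.sub_apply, Pi.single_eq_of_ne (hne b)]
        by_cases hbc : b = c
        · subst hbc
          rw [Pi.single_eq_same, if_pos rfl]
          norm_num
        · rw [Pi.single_eq_of_ne (fun h => hbc (Subtype.ext h)), if_neg]
          · norm_num
          · intro h
            exact hbc (Option.some_injective _ h)
    · rintro (_ | b) hi hr
      · refine ⟨none, ?_⟩
        rw [oneHom_none]
        funext c
        by_cases h : c = none
        · subst h; simp
        · simp [Function.update_of_ne h, hwa, Pi.single_eq_of_ne h]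
      · have hba : b ≠ a := fun h => hi (by rw [h])
        have hlt : rk b < rk a := lt_of_le_of_ne hr fun h => hba (rk_inj h)
        refine ⟨some ⟨b, hlt⟩, ?_⟩
        rw [oneHom_some, hw0, hws', neg_add_cancel]
    · rintro (_ | b)
      · refine ⟨none, rk_pos a, fun x => x none, fun x => ?_⟩
        rw [hwn, oneHom_some, oneHom_none]
        congr 1
        rw [← Pi.single_smul, smul_eq_mul, mul_one]
      · refine ⟨some b.1, b.2, fun x => x none, fun x => ?_⟩
        rw [hws, oneHom_some, oneHom_some, smul_sub, ← Pi.single_smul, ← Pi.single_smul,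
          smul_eq_mul, mul_one]
        abel

end Pool.Agent.Y311.DN
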