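import Pool.Agent.Y311.DN.Comm

/-!
# Symmetric averages
-/

set_option autoImplicit false
set_option linter.unusedSectionVars false
set_option maxHeartbeats 400000

open Filter Topology MeasureTheory ProbabilityTheory
open scoped ENNReal Matrix

noncomputable section

namespace Pool.Agent.Y311.DN

open Pool.Agent.Y311.UB Pool.Agent.W761.Box

/-- From pair differences to the counting form. -/
theorem wrap {X : Type*} [MeasurableSpace X] {μ : Measure X} [IsProbabilityMeasure μ] {q : ℕ}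
    {A A' : ℕ → X → ℂ} (hA : ∀ N, Measurable (A N)) {C : ℝ}
    (hC0 : 0 ≤ C) (hC : ∀ N x, ‖A N x‖ ≤ C)
    {W : (Fin q → ℕ) → X → X} (hW : ∀ c, MeasurePreserving (W c) μ μ)
    (h : ∀ᵐ x ∂μ, Tendsto (fun M : (Fin 1 → ℕ) × (Fin 1 → ℕ) × (Fin q → ℕ) =>
      ba M.2.2 fun c => ‖A (M.1 0) (W c x) - A (M.2.1 0) (W c x)‖ ^ 2) atTop (𝓝 0))
    (hAA : ∀ᵐ x ∂μ, ∀ N, A' N x = A N x) :
    ∃ (F : X → ℂ) (C : ℝ), Measurable F ∧ (∀ x, ‖F x‖ ≤ C) ∧
      Tendsto (fun N => ∫ x, ‖A' N x - F x‖ ^ 2 ∂μ) atTop (𝓝 0) ∧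
      ∀ᵐ x ∂μ, ∀ ε : ℝ, 0 < ε → ∃ K : ℕ, ∀ (N : ℕ) (L : Fin q → ℕ),
        K ≤ N → (∀ s, K ≤ L s) →
        (((Fintype.piFinset (fun s => Finset.Icc 1 (L s))).filter fun c =>
          ε ≤ ‖A' N (W c x) - F (W c x)‖).card : ℝ) ≤ ε * ∏ s, (L s : ℝ) := by
  obtain ⟨F, hFm, hFC, hF1, hF2⟩ := lim_exists (p := 1) (A := fun N : Fin 1 → ℕ => A (N 0))
    (fun N => hA _) hC0 (fun N x => hC _ _) hW h
  have hall : ∀ᵐ x ∂μ, ∀ (c : Fin q → ℕ) N, A' N (W c x) = A N (W c x) := by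
    rw [ae_all_iff]
    intro c
    exact (hW c).quasiMeasurePreserving.ae hAA
  refine ⟨F, C, hFm, hFC, ?_, ?_⟩
  · have hφ : Tendsto (fun N : ℕ => (fun _ : Fin 1 => N)) atTop atTop :=
      tendsto_atTop_atTop.mpr fun b => ⟨b 0, fun N hN i => by
        rw [Subsingleton.elim i 0]
        exact hN⟩
    refine (hF1.comp hφ).congr fun N => ?_
    simp only [Function.comp_apply]
    refine integral_congr_ae ?_
    filter_upwards [hAA] with x hx
    rw [hx]
  · filter_upwards [hF2, hall] with x hx hx2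
    intro ε hε
    obtain ⟨M0, hM0⟩ := (Metric.tendsto_atTop.mp hx) (ε ^ 3) (by positivity)
    refine ⟨∑ i, M0.1 i + ∑ s, M0.2 s + 1, fun N L hN hL => ?_⟩
    have h1 := hM0 (fun _ => N, L) ⟨fun i => ?_, fun s => ?_⟩
    · rw [Real.dist_eq, sub_zero] at h1
      simp only [hx2]
      refine cheb (fun s => ?_) hε ((le_abs_self _).trans h1.le)
      have := hL s
      omega
    · have h2 := Finset.single_le_sum (f := M0.1) (fun _ _ => Nat.zero_le _) (Finset.mem_univ i)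
      show M0.1 i ≤ N
      omega
    · have h2 := Finset.single_le_sum (f := M0.2) (fun _ _ => Nat.zero_le _) (Finset.mem_univ s)
      have h3 := hL s
      show M0.2 s ≤ L s
      omega

theorem sum_Icc_sym {R : Type*} [AddCommMonoid R] (N : ℕ) (F : ℤ → R) :
    ∑ n ∈ Finset.Icc (-(N : ℤ)) N, F n =
      F 0 + (∑ n ∈ Finset.Icc 1 N, F n + ∑ n ∈ Finset.Icc 1 N, F (-(n : ℤ))) := by
  induction N with
  | zero => simp
  | succ N ih =>
    have h1 : Finset.Icc (-((N + 1 : ℕ) : ℤ)) ((N + 1 : ℕ) : ℤ) =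
        insert (-((N + 1 : ℕ) : ℤ)) (insert ((N + 1 : ℕ) : ℤ) (Finset.Icc (-(N : ℤ)) N)) := by
      ext n
      simp only [Finset.mem_insert, Finset.mem_Icc]
      push_cast
      omega
    have h2 : -((N + 1 : ℕ) : ℤ) ∉ insert ((N + 1 : ℕ) : ℤ) (Finset.Icc (-(N : ℤ)) N) := by
      simp only [Finset.mem_insert, Finset.mem_Icc]
      push_cast
      omega
    have h3 : ((N + 1 : ℕ) : ℤ) ∉ Finset.Icc (-(N : ℤ)) N := by
      simp only [Finset.mem_Icc]
      push_cast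
      omega
    rw [h1, Finset.sum_insert h2, Finset.sum_insert h3, ih, Finset.sum_Icc_succ_top (by omega),
      Finset.sum_Icc_succ_top (by omega)]
    abel

/-- One parameter, symmetric averages, an abstract action. -/
theorem sym_dens {H : Type*} [AddCommGroup H] [Countable H] {m q : ℕ}
    (v : Option (Fin m) → H)
    (u : Fin q → H) (hv : ∀ j, ∃ a : Fin q → ℤ, v (some j) = ∑ s, a s • u s)
    {X : Type*} [MeasurableSpace X] {μ : Measure X} [IsProbabilityMeasure μ]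
    {Ψ : H → Equiv.Perm X} (hΨ : Act μ Ψ) {f : Option (Fin m) → X → ℂ}
    (hf : ∀ a, MemLp (f a) ∞ μ) {A : ℕ → X → ℂ}
    (hA : ∀ N x, A N x = (2 * (N : ℂ) + 1)⁻¹ *
      ∑ n ∈ Finset.Icc (-(N : ℤ)) N, ∏ a, f a (Ψ (n • v a) x)) :
    ∃ (F : X → ℂ) (C : ℝ), Measurable F ∧ (∀ x, ‖F x‖ ≤ C) ∧
      Tendsto (fun N => ∫ x, ‖A N x - F x‖ ^ 2 ∂μ) atTop (𝓝 0) ∧
      ∀ᵐ x ∂μ, ∀ ε : ℝ, 0 < ε → ∃ K : ℕ, ∀ (N : ℕ) (L : Fin q → ℕ),
        K ≤ N → (∀ s, K ≤ L s) →
        (((Fintype.piFinset (fun s => Finset.Icc 1 (L s))).filter fun c =>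
          ε ≤ ‖A N (Ψ (∑ s, ((c s : ℕ) : ℤ) • u s) x) -
            F (Ψ (∑ s, ((c s : ℕ) : ℤ) • u s) x)‖).card : ℝ) ≤ ε * ∏ s, (L s : ℝ) := by
  choose a ha using hv
  choose g hg hfg using fun a => BM_of_memLp' (hf a)
  have hall : ∀ᵐ x ∂μ, ∀ (a : Option (Fin m)) (h : H), f a (Ψ h x) = g a (Ψ h x) := by
    rw [ae_all_iff]
    intro a
    rw [ae_all_iff]
    intro h
    exact (hΨ.mp h).quasiMeasurePreserving.ae_eq_comp (hfg a)
  have hg' := hg
  choose hgm C hC using hg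
  have hC' : ∀ a x, ‖g a x‖ ≤ |C a| := fun a x => (hC a x).trans (le_abs_self _)
  set D : ℝ := ∏ a, |C a| with hD
  have hD0 : 0 ≤ D := Finset.prod_nonneg fun _ _ => abs_nonneg _
  -- the two one-sided averages
  set P : ℕ → X → ℂ := fun N => av Ψ (fun _ : Fin 1 => v) g fun _ => N with hP
  set Q : ℕ → X → ℂ := fun N => av Ψ (fun _ : Fin 1 => -v) g fun _ => N with hQ
  set Z : X → ℂ := fun x => ∏ a, g a x with hZ
  set B : ℕ → X → ℂ := fun N x => (2 * (N : ℂ) + 1)⁻¹ * (Z x + (N * P N x + N * Q N x)) with hB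
  have hPm : ∀ N, Measurable (P N) := fun N => av_meas hΨ _ hgm _
  have hQm : ∀ N, Measurable (Q N) := fun N => av_meas hΨ _ hgm _
  have hZm : Measurable Z := Finset.measurable_fun_prod _ fun a _ => hgm a
  have hBm : ∀ N, Measurable (B N) := fun N =>
    (hZm.add (((hPm N).const_mul _).add ((hQm N).const_mul _))).const_mul _
  have hPb : ∀ N x, ‖P N x‖ ≤ D := fun N x => av_bound Ψ _ hC' (fun _ => abs_nonneg _) _ x
  have hQb : ∀ N x, ‖Q N x‖ ≤ D := fun N x => av_bound Ψ _ hC' (fun _ => abs_nonneg _) _ x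
  have hZb : ∀ x, ‖Z x‖ ≤ D := by
    intro x
    rw [hZ]
    simp only
    rw [norm_prod]
    exact Finset.prod_le_prod (fun a _ => norm_nonneg _) fun a _ => hC' a _
  have hN2 : ∀ N : ℕ, (2 * (N : ℂ) + 1) ≠ 0 := by
    intro N
    have : ((2 * N + 1 : ℕ) : ℂ) ≠ 0 := Nat.cast_ne_zero.mpr (by omega)
    push_cast at this
    exact this
  have hnN : ∀ N : ℕ, ‖(2 * (N : ℂ) + 1)‖ = 2 * (N : ℝ) + 1 := by
    intro N
    have : (2 * (N : ℂ) + 1) = ((2 * (N : ℝ) + 1 : ℝ) : ℂ) := by push_cast; ring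
    rw [this, Complex.norm_real, Real.norm_eq_abs, abs_of_nonneg (by positivity)]
  have hdec : ∀ (N : ℕ) x, ‖B N x - (1 / 2 * P N x + 1 / 2 * Q N x)‖ ≤
      2 * D * ((N : ℝ) + 1)⁻¹ := by
    intro N x
    have e1 : B N x - (1 / 2 * P N x + 1 / 2 * Q N x) =
        (2 * (N : ℂ) + 1)⁻¹ * (Z x - 1 / 2 * P N x - 1 / 2 * Q N x) := by
      rw [hB]
      have := hN2 N
      field_simp
      ring
    rw [e1, norm_mul, norm_inv, hnN]
    have e2 : ‖Z x - 1 / 2 * P N x - 1 / 2 * Q N x‖ ≤ 2 * D := by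
      refine (norm_sub_le _ _).trans ?_
      refine (add_le_add (norm_sub_le _ _) le_rfl).trans ?_
      rw [norm_mul, norm_mul]
      have h1 := hZb x
      have h2 := hPb N x
      have h3 := hQb N x
      have h4 : ‖(1 / 2 : ℂ)‖ = 1 / 2 := by norm_num
      rw [h4]
      linarith
    rw [mul_comm]
    refine mul_le_mul e2 ?_ (by positivity) (by positivity)
    apply inv_anti₀ (by positivity)
    have : (0 : ℝ) ≤ N := Nat.cast_nonneg N
    linarith
  have hwP := win_conv (p := 1) (fun _ : Fin 1 => v) u (fun _ j => a j) (fun _ j => ha j) hΨ hg'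
  have hwQ := win_conv (p := 1) (fun _ : Fin 1 => -v) u (fun _ j => -a j) (fun _ j => by
    show -v (some j) = _
    rw [map_neg]
    congr 1
    exact ha j) hΨ hg'
  have hBb : ∀ N x, ‖B N x‖ ≤ 3 * D := by
    intro N x
    have h1 := hdec N x
    have h5 : ((N : ℝ) + 1)⁻¹ ≤ 1 := by
      apply inv_le_one_of_one_le₀
      have : (0 : ℝ) ≤ N := Nat.cast_nonneg N
      linarith
    have h6 : 2 * D * ((N : ℝ) + 1)⁻¹ ≤ 2 * D := by
      have := mul_le_mul_of_nonneg_left h5 (by positivity : (0 : ℝ) ≤ 2 * D)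
      linarith
    have h7 : ‖(1 / 2 * P N x + 1 / 2 * Q N x)‖ ≤ D := by
      refine (norm_add_le _ _).trans ?_
      rw [norm_mul, norm_mul]
      have h4 : ‖(1 / 2 : ℂ)‖ = 1 / 2 := by norm_num
      rw [h4]
      have h2 := hPb N x
      have h3 := hQb N x
      linarith
    have h8 : B N x = (B N x - (1 / 2 * P N x + 1 / 2 * Q N x)) +
        (1 / 2 * P N x + 1 / 2 * Q N x) := by ring
    rw [h8]
    refine (norm_add_le _ _).trans ?_
    linarith
  refine wrap (A := B) hBm (C := 3 * D) (by positivity) hBb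
    (W := fun c : Fin q → ℕ => (Ψ (∑ s, ((c s : ℕ) : ℤ) • u s) : X → X))
    (fun c => hΨ.mp _) ?_ ?_
  · filter_upwards [hwP, hwQ] with x hx1 hx2
    have hx1' : Tendsto (fun M : (Fin 1 → ℕ) × (Fin 1 → ℕ) × (Fin q → ℕ) =>
        ba M.2.2 fun c => ‖P (M.1 0) (Ψ (∑ s, ((c s : ℕ) : ℤ) • u s) x) -
          P (M.2.1 0) (Ψ (∑ s, ((c s : ℕ) : ℤ) • u s) x)‖ ^ 2) atTop (𝓝 0) := by
      refine hx1.congr fun M => ?_
      have e1 : (fun _ : Fin 1 => M.1 0) = M.1 := by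
        funext i
        rw [Subsingleton.elim i 0]
      have e2 : (fun _ : Fin 1 => M.2.1 0) = M.2.1 := by
        funext i
        rw [Subsingleton.elim i 0]
      simp only [hP]
      rw [e1, e2]
      rfl
    have hx2' : Tendsto (fun M : (Fin 1 → ℕ) × (Fin 1 → ℕ) × (Fin q → ℕ) =>
        ba M.2.2 fun c => ‖Q (M.1 0) (Ψ (∑ s, ((c s : ℕ) : ℤ) • u s) x) -
          Q (M.2.1 0) (Ψ (∑ s, ((c s : ℕ) : ℤ) • u s) x)‖ ^ 2) atTop (𝓝 0) := by
      refine hx2.congr fun M => ?_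
      have e1 : (fun _ : Fin 1 => M.1 0) = M.1 := by
        funext i
        rw [Subsingleton.elim i 0]
      have e2 : (fun _ : Fin 1 => M.2.1 0) = M.2.1 := by
        funext i
        rw [Subsingleton.elim i 0]
      simp only [hQ]
      rw [e1, e2]
      rfl
    have herr : Tendsto (fun M : (Fin 1 → ℕ) × (Fin 1 → ℕ) × (Fin q → ℕ) =>
        3 * (2 * D * ((M.1 0 : ℝ) + 1)⁻¹ + 2 * D * ((M.2.1 0 : ℝ) + 1)⁻¹) ^ 2) atTop (𝓝 0) := by
      have h1 : Tendsto (fun M : (Fin 1 → ℕ) × (Fin 1 → ℕ) × (Fin q → ℕ) =>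
          ((M.1 0 : ℝ) + 1)⁻¹) atTop (𝓝 0) := by
        refine tendsto_inv_atTop_zero.comp (tendsto_atTop_add_const_right _ _
          (tendsto_natCast_atTop_atTop.comp ?_))
        exact tendsto_atTop_atTop.mpr fun b => ⟨(fun _ => b, 0, 0), fun M hM => hM.1 0⟩
      have h2 : Tendsto (fun M : (Fin 1 → ℕ) × (Fin 1 → ℕ) × (Fin q → ℕ) =>
          ((M.2.1 0 : ℝ) + 1)⁻¹) atTop (𝓝 0) := by
        refine tendsto_inv_atTop_zero.comp (tendsto_atTop_add_const_right _ _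
          (tendsto_natCast_atTop_atTop.comp ?_))
        exact tendsto_atTop_atTop.mpr fun b => ⟨(0, fun _ => b, 0), fun M hM => hM.2.1 0⟩
      have h3 := (((h1.const_mul (2 * D)).add (h2.const_mul (2 * D))).pow 2).const_mul 3
      simpa using h3
    have hsum := (hx1'.add hx2').add herr
    rw [add_zero, add_zero] at hsum
    refine squeeze_zero (fun M => ba_nonneg fun c => by positivity) (fun M => ?_) hsum
    calc (ba M.2.2 fun c => ‖B (M.1 0) (Ψ (∑ s, ((c s : ℕ) : ℤ) • u s) x) -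
          B (M.2.1 0) (Ψ (∑ s, ((c s : ℕ) : ℤ) • u s) x)‖ ^ 2)
        ≤ ba M.2.2 fun c => (‖P (M.1 0) (Ψ (∑ s, ((c s : ℕ) : ℤ) • u s) x) -
          P (M.2.1 0) (Ψ (∑ s, ((c s : ℕ) : ℤ) • u s) x)‖ ^ 2 +
          ‖Q (M.1 0) (Ψ (∑ s, ((c s : ℕ) : ℤ) • u s) x) -
          Q (M.2.1 0) (Ψ (∑ s, ((c s : ℕ) : ℤ) • u s) x)‖ ^ 2) +
          3 * (2 * D * ((M.1 0 : ℝ) + 1)⁻¹ + 2 * D * ((M.2.1 0 : ℝ) + 1)⁻¹) ^ 2 := by
          refine ba_mono fun c => ?_
          set y := Ψ (∑ s, ((c s : ℕ) : ℤ) • u s) x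
          have h1 := hdec (M.1 0) y
          have h2 := hdec (M.2.1 0) y
          set p1 := P (M.1 0) y
          set p2 := P (M.2.1 0) y
          set q1 := Q (M.1 0) y
          set q2 := Q (M.2.1 0) y
          set b1 := B (M.1 0) y
          set b2 := B (M.2.1 0) y
          set r1 := 2 * D * ((M.1 0 : ℝ) + 1)⁻¹
          set r2 := 2 * D * ((M.2.1 0 : ℝ) + 1)⁻¹
          have h3 : ‖b1 - b2‖ ≤ 1 / 2 * ‖p1 - p2‖ + 1 / 2 * ‖q1 - q2‖ + (r1 + r2) := by
            have e1 : b1 - b2 = (1 / 2 : ℂ) * (p1 - p2) + (1 / 2 : ℂ) * (q1 - q2) +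
                ((b1 - (1 / 2 * p1 + 1 / 2 * q1)) - (b2 - (1 / 2 * p2 + 1 / 2 * q2))) := by ring
            rw [e1]
            refine (norm_add_le _ _).trans (add_le_add ((norm_add_le _ _).trans ?_)
              ((norm_sub_le _ _).trans (add_le_add h1 h2)))
            rw [norm_mul, norm_mul]
            have h4 : ‖(1 / 2 : ℂ)‖ = 1 / 2 := by norm_num
            rw [h4]
          have h5 : ‖b1 - b2‖ ^ 2 ≤ (1 / 2 * ‖p1 - p2‖ + 1 / 2 * ‖q1 - q2‖ + (r1 + r2)) ^ 2 :=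
            pow_le_pow_left₀ (norm_nonneg _) h3 2
          refine h5.trans ?_
          nlinarith [sq_nonneg (1 / 2 * ‖p1 - p2‖ - 1 / 2 * ‖q1 - q2‖),
            sq_nonneg (1 / 2 * ‖p1 - p2‖ - (r1 + r2)), sq_nonneg (1 / 2 * ‖q1 - q2‖ - (r1 + r2)),
            sq_nonneg ‖p1 - p2‖, sq_nonneg ‖q1 - q2‖]
      _ ≤ _ := by
          rw [ba_add, ba_add]
          have := ba_const_le (M := M.2.2)
            (c := 3 * (2 * D * ((M.1 0 : ℝ) + 1)⁻¹ + 2 * D * ((M.2.1 0 : ℝ) + 1)⁻¹) ^ 2)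
            (by positivity)
          linarith
  · filter_upwards [hall] with x hx
    intro N
    rw [hA, hB]
    simp only
    congr 1
    rw [sum_Icc_sym]
    have hfg' : ∀ n : ℤ, ∏ a, f a (Ψ (n • v a) x) = ∏ a, g a (Ψ (n • v a) x) := fun n =>
      Finset.prod_congr rfl fun a _ => hx _ _
    congr 1
    · rw [hfg', hZ]
      simp only [zero_smul]
      rw [hΨ.zero]
      rfl
    · rcases Nat.eq_zero_or_pos N with hN | hN
      · subst hN
        simp
      have hNc : (N : ℂ) ≠ 0 := Nat.cast_ne_zero.mpr (by omega)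
      congr 1
      · rw [hP]
        simp only
        rw [av, sum_fin1, Fin.prod_univ_one, ← mul_assoc, mul_inv_cancel₀ hNc, one_mul]
        refine Finset.sum_congr rfl fun n _ => ?_
        rw [hfg']
        refine Finset.prod_congr rfl fun a _ => ?_
        rw [Fin.sum_univ_one]
      · rw [hQ]
        simp only
        rw [av, sum_fin1, Fin.prod_univ_one, ← mul_assoc, mul_inv_cancel₀ hNc, one_mul]
        refine Finset.sum_congr rfl fun n _ => ?_
        rw [hfg']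
        refine Finset.prod_congr rfl fun a _ => ?_
        rw [Fin.sum_univ_one]
        have e : -(n : ℤ) • v a = (n : ℤ) • (-v) a := by
          rw [Pi.neg_apply, neg_smul, smul_neg]
        rw [e]

end Pool.Agent.Y311.DN
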