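import Pool.Agent.Y311.DN.Pair

/-!
# Windows
-/

set_option autoImplicit false
set_option linter.unusedSectionVars false

open Filter Topology MeasureTheory ProbabilityTheory
open scoped ENNReal

noncomputable section

namespace Pool.Agent.Y311.DN

open Pool.Agent.Y311.UB Pool.Agent.W761.Box

/-- Averages over boxes `[1, M]`. -/
def ba {V : Type} [Fintype V] [DecidableEq V] (M : V → ℕ) (g : (V → ℕ) → ℝ) : ℝ :=
  (∏ v, (M v : ℝ))⁻¹ * ∑ m ∈ Fintype.piFinset (fun v => Finset.Icc 1 (M v)), g m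

section ba

variable {V : Type} [Fintype V] [DecidableEq V]

theorem ba_mono {M : V → ℕ} {g h : (V → ℕ) → ℝ} (hgh : ∀ m, g m ≤ h m) : ba M g ≤ ba M h := by
  rw [ba, ba]
  exact mul_le_mul_of_nonneg_left (Finset.sum_le_sum fun m _ => hgh m) (by positivity)

theorem ba_mono' {M : V → ℕ} {g h : (V → ℕ) → ℝ}
    (hgh : ∀ m ∈ Fintype.piFinset (fun v => Finset.Icc 1 (M v)), g m ≤ h m) : ba M g ≤ ba M h := by
  rw [ba, ba]
  exact mul_le_mul_of_nonneg_left (Finset.sum_le_sum fun m hm => hgh m hm) (by positivity)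

theorem ba_nonneg {M : V → ℕ} {g : (V → ℕ) → ℝ} (h : ∀ m, 0 ≤ g m) : 0 ≤ ba M g := by
  rw [ba]
  exact mul_nonneg (by positivity) (Finset.sum_nonneg fun m _ => h m)

theorem ba_const {M : V → ℕ} (hM : ∀ v, 0 < M v) (c : ℝ) : ba M (fun _ => c) = c := by
  rw [ba, Finset.sum_const, Fintype.card_piFinset, nsmul_eq_mul]
  have h : (∏ v, (M v : ℝ)) ≠ 0 := Finset.prod_ne_zero_iff.mpr fun v _ => by
    have := hM v
    positivity
  have h2 : ((∏ v, (Finset.Icc 1 (M v)).card : ℕ) : ℝ) = ∏ v, (M v : ℝ) := by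
    push_cast
    refine Finset.prod_congr rfl fun v _ => ?_
    rw [Nat.card_Icc]
    simp
  rw [h2, ← mul_assoc, inv_mul_cancel₀ h, one_mul]

theorem ba_const_le {M : V → ℕ} {c : ℝ} (hc : 0 ≤ c) : ba M (fun _ => c) ≤ c := by
  by_cases hM : ∀ v, 0 < M v
  · rw [ba_const hM]
  · push Not at hM
    obtain ⟨v, hv⟩ := hM
    have h0 : ∏ v, (M v : ℝ) = 0 := Finset.prod_eq_zero (Finset.mem_univ v) (by
      have : M v = 0 := by omega
      rw [this]
      simp)
    rw [ba, h0, inv_zero, zero_mul]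
    exact hc

theorem ba_add (M : V → ℕ) (g h : (V → ℕ) → ℝ) :
    ba M (fun m => g m + h m) = ba M g + ba M h := by
  rw [ba, ba, ba, Finset.sum_add_distrib, mul_add]

theorem ba_mul (M : V → ℕ) (c : ℝ) (g : (V → ℕ) → ℝ) :
    ba M (fun m => c * g m) = c * ba M g := by
  rw [ba, ba, ← Finset.mul_sum]
  ring

end ba

theorem ba_sum {α β : Type} [Fintype α] [DecidableEq α] [Fintype β] [DecidableEq β]
    (M : α ⊕ β → ℕ) (g : (α ⊕ β → ℕ) → ℝ) :
    ba M g = ba (fun v => M (Sum.inl v)) fun a => ba (fun v => M (Sum.inr v)) fun b =>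
      g (Sum.elim a b) := by
  simp only [ba]
  rw [Fintype.prod_sum_type, sum_box_sum, mul_inv, mul_assoc, Finset.mul_sum]

theorem ba_bz {k : ℕ} (M : Fin k → ℕ) (a : (Fin k → ℤ) → ℝ) :
    ba M (fun m => a (fun i => ((m i : ℕ) : ℤ))) = bz M fun m => a (m + 1) := by
  rw [ba, bz, bx, sum_Icc_box]
  congr 1

/-- Uniform asymptotic invariance. -/
def USh {k : ℕ} (v : Fin k → ℤ) : Prop := ∃ D : ℝ, 0 ≤ D ∧ ∀ (N : Fin k → ℕ),
  (∀ i, 0 < N i) → ∀ (a : (Fin k → ℤ) → ℝ) (C : ℝ), (∀ m, |a m| ≤ C) →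
    |bz N (fun m => a (m + v)) - bz N a| ≤ C * D * ∑ i, (N i : ℝ)⁻¹

theorem uSh_zero {k : ℕ} : USh (0 : Fin k → ℤ) := by
  refine ⟨0, le_rfl, fun N _ a C _ => ?_⟩
  simp

theorem uSh_add {k : ℕ} {v w : Fin k → ℤ} (hv : USh v) (hw : USh w) : USh (v + w) := by
  obtain ⟨D, hD, h1⟩ := hv
  obtain ⟨E, hE, h2⟩ := hw
  refine ⟨D + E, by positivity, fun N hN a C hC => ?_⟩
  have e1 := h1 N hN a C hC
  have e2 := h2 N hN (fun m => a (m + v)) C (fun m => hC _)
  have h4 : (fun m : Fin k → ℤ => a (m + w + v)) = fun m => a (m + (v + w)) := by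
    funext m
    congr 1
    abel
  rw [h4] at e2
  have e3 : bz N (fun m => a (m + (v + w))) - bz N a =
      (bz N (fun m => a (m + (v + w))) - bz N (fun m => a (m + v))) +
        (bz N (fun m => a (m + v)) - bz N a) := by ring
  rw [e3]
  refine (abs_add_le _ _).trans ?_
  calc _ ≤ C * E * ∑ i, (N i : ℝ)⁻¹ + C * D * ∑ i, (N i : ℝ)⁻¹ := add_le_add e2 e1
    _ = _ := by ring

theorem uSh_neg {k : ℕ} {v : Fin k → ℤ} (hv : USh v) : USh (-v) := by
  obtain ⟨D, hD, h1⟩ := hv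
  refine ⟨D, hD, fun N hN a C hC => ?_⟩
  have e1 := h1 N hN (fun m => a (m + -v)) C (fun m => hC _)
  have h4 : (fun m : Fin k → ℤ => a (m + v + -v)) = a := by
    funext m
    congr 1
    abel
  rw [h4, abs_sub_comm] at e1
  exact e1

theorem uSh_single {k : ℕ} (z : ℤ) (i : Fin k) : USh (Pi.single i z : Fin k → ℤ) := by
  have hunit : USh (Pi.single i 1 : Fin k → ℤ) := by
    refine ⟨2, by norm_num, fun N hN a C hC => ?_⟩
    have hC0 : 0 ≤ C := (abs_nonneg _).trans (hC 0)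
    have h3 := bx_unit_shift k N i (fun m => a (cz m)) C (fun m => hC _) (hN i)
    simp only [cz_add_single] at h3
    refine h3.trans ?_
    have h5 : (N i : ℝ)⁻¹ ≤ ∑ j, (N j : ℝ)⁻¹ :=
      Finset.single_le_sum (f := fun j => (N j : ℝ)⁻¹) (fun j _ => by positivity)
        (Finset.mem_univ i)
    calc 2 * C / N i = C * 2 * (N i : ℝ)⁻¹ := by ring
      _ ≤ _ := mul_le_mul_of_nonneg_left h5 (by positivity)
  have hnat : ∀ n : ℕ, USh (Pi.single i (n : ℤ) : Fin k → ℤ) := by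
    intro n
    induction n with
    | zero =>
      rw [Nat.cast_zero, Pi.single_zero]
      exact uSh_zero
    | succ n ih =>
      have h1 := uSh_add ih hunit
      rw [← Pi.single_add] at h1
      push_cast
      exact h1
  obtain ⟨n, rfl | rfl⟩ := z.eq_nat_or_neg
  · exact hnat n
  · have h1 := uSh_neg (hnat n)
    rw [← Pi.single_neg] at h1
    exact h1

theorem uSh_all {k : ℕ} (v : Fin k → ℤ) : USh v := by
  have hall : ∀ s : Finset (Fin k), USh (∑ i ∈ s, Pi.single i (v i) : Fin k → ℤ) := by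
    intro s
    induction s using Finset.induction_on with
    | empty =>
      rw [Finset.sum_empty]
      exact uSh_zero
    | insert i s hi ih =>
      rw [Finset.sum_insert hi]
      exact uSh_add (uSh_single _ _) ih
  have h5 := hall Finset.univ
  rwa [Finset.univ_sum_single] at h5

/-- Uniform asymptotic invariance for `ba`. -/
theorem ba_shift {k : ℕ} (v : Fin k → ℤ) : ∃ D : ℝ, 0 ≤ D ∧ ∀ (N : Fin k → ℕ),
    (∀ i, 0 < N i) → ∀ (a : (Fin k → ℤ) → ℝ) (C : ℝ), (∀ m, |a m| ≤ C) →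
      |ba N (fun m => a (v + fun i => ((m i : ℕ) : ℤ))) -
        ba N (fun m => a (fun i => ((m i : ℕ) : ℤ)))| ≤ C * D * ∑ i, (N i : ℝ)⁻¹ := by
  obtain ⟨D, hD, h⟩ := uSh_all v
  refine ⟨D, hD, fun N hN a C hC => ?_⟩
  rw [ba_bz N (fun z => a (v + z)), ba_bz]
  have h1 := h N hN (fun m => a (m + 1)) C (fun m => hC _)
  have h4 : (fun m : Fin k → ℤ => a (m + v + 1)) = fun m => a (v + (m + 1)) := by
    funext m
    congr 1
    abel
  rw [h4] at h1
  exact h1

end Pool.Agent.Y311.DN
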